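import Mathlib

/-!
A digraph with arbitrarily many, but not infinitely many, pairwise arc-disjoint directed double rays.

Vertices: hubs `z t`; in segment `t` (between `z t` and `z (t+1)`) there are `p t, q t, r t` and
private vertices `u t a`, `x t a`; the in-lane of type `a` consists of `w a t`, `y a t`, `y' a t`
and passes through `r t` if `A t = a` and through `p t → q t` if `B t = a` (and the pair is conflicting).
-/

set_option autoImplicit false

namespace Pool.Agent.H798R3.DirRay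

inductive V : Type
  | z (t : ℕ) | p (t : ℕ) | q (t : ℕ) | r (t : ℕ)
  | u (t a : ℕ) | x (t a : ℕ)
  | w (a t : ℕ) | y (a t : ℕ) | y' (a t : ℕ)

open V

def A (t : ℕ) : ℕ := (t.unpair.1).unpair.1
def B (t : ℕ) : ℕ := (t.unpair.1).unpair.2
/-- the two lanes scheduled at segment `t` have different colours -/
def Cf (t : ℕ) : Prop := Nat.sqrt (A t) ≠ Nat.sqrt (B t)

instance : DecidablePred Cf := fun _ => inferInstanceAs (Decidable (_ ≠ _))

lemma Cf.ne {t : ℕ} (h : Cf t) : A t ≠ B t := fun e => h (by rw [e])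

lemma freq (a b s : ℕ) : ∃ t, s ≤ t ∧ A t = a ∧ B t = b := by
  refine ⟨Nat.pair (Nat.pair a b) s, Nat.right_le_pair _ _, ?_, ?_⟩ <;> simp [A, B]

/-- `Arc a` are the arcs of the canonical double ray of type `a`. -/
inductive Arc : ℕ → V → V → Prop
  | zp (t a : ℕ) (h : A t = a) : Arc a (z t) (p t)
  | zu (t a : ℕ) (h : A t ≠ a) : Arc a (z t) (u t a)
  | ur (t a : ℕ) (h : A t ≠ a) : Arc a (u t a) (r t)
  | rx (t a : ℕ) (h : A t ≠ a) : Arc a (r t) (x t a)
  | xz (t a : ℕ) : Arc a (x t a) (z (t+1))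
  | pqA (t a : ℕ) (h : A t = a) : Arc a (p t) (q t)
  | pqB (t a : ℕ) (hc : Cf t) (h : B t = a) : Arc a (p t) (q t)
  | qx (t a : ℕ) (h : A t = a) : Arc a (q t) (x t a)
  | qw (t a : ℕ) (hc : Cf t) (h : B t = a) : Arc a (q t) (w a t)
  | rw (t a : ℕ) (h : A t = a) : Arc a (r t) (w a t)
  | yr (t a : ℕ) (h : A t = a) : Arc a (y a t) (r t)
  | yy (t a : ℕ) (h : A t ≠ a) (h' : ¬ (Cf t ∧ B t = a)) : Arc a (y a t) (y' a t)
  | yw (t a : ℕ) : Arc a (y' a t) (w a t)
  | wy (t a : ℕ) (h : ¬ (Cf t ∧ B t = a)) : Arc a (w a (t+1)) (y a t)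
  | wp (t a : ℕ) (hc : Cf t) (h : B t = a) : Arc a (w a (t+1)) (p t)
  | w0 (a : ℕ) : Arc a (w a 0) (z 0)

def G : Digraph V := ⟨fun v v' => ∃ a, Arc a v v'⟩

/-! ### The canonical double rays -/

def F (a t : ℕ) : ℕ → V
  | 0 => z t
  | 1 => if A t = a then p t else u t a
  | 2 => if A t = a then q t else r t
  | _ => x t a

def Gm (a t : ℕ) : ℕ → V
  | 0 => w a t
  | 1 => if A t = a then r t else if Cf t ∧ B t = a then q t else y' a t
  | _ => if Cf t ∧ B t = a then p t else y a t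

def Q (a : ℕ) : ℤ → V
  | Int.ofNat n => F a (n/4) (n%4)
  | Int.negSucc n => Gm a (n/3) (n%3)

lemma F_adj (a n : ℕ) : Arc a (F a (n/4) (n%4)) (F a ((n+1)/4) ((n+1)%4)) := by
  have h4 : n % 4 < 4 := Nat.mod_lt _ (by norm_num)
  rcases (by omega : n % 4 = 0 ∨ n % 4 = 1 ∨ n % 4 = 2 ∨ n % 4 = 3) with h | h | h | h
  · rw [h, show (n+1)/4 = n/4 by omega, show (n+1)%4 = 1 by omega]
    simp only [F]
    split_ifs with h1
    · exact Arc.zp _ _ h1
    · exact Arc.zu _ _ h1
  · rw [h, show (n+1)/4 = n/4 by omega, show (n+1)%4 = 2 by omega]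
    simp only [F]
    split_ifs with h1
    · exact Arc.pqA _ _ h1
    · exact Arc.ur _ _ h1
  · rw [h, show (n+1)/4 = n/4 by omega, show (n+1)%4 = 3 by omega]
    simp only [F]
    split_ifs with h1
    · exact Arc.qx _ _ h1
    · exact Arc.rx _ _ h1
  · rw [h, show (n+1)/4 = n/4+1 by omega, show (n+1)%4 = 0 by omega]
    simp only [F]
    exact Arc.xz _ _

lemma Gm_adj (a n : ℕ) : Arc a (Gm a ((n+1)/3) ((n+1)%3)) (Gm a (n/3) (n%3)) := by
  have h4 : n % 3 < 3 := Nat.mod_lt _ (by norm_num)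
  rcases (by omega : n % 3 = 0 ∨ n % 3 = 1 ∨ n % 3 = 2) with h | h | h
  · rw [h, show (n+1)/3 = n/3 by omega, show (n+1)%3 = 1 by omega]
    simp only [Gm]
    split_ifs with h1 h2
    · exact Arc.rw _ _ h1
    · exact Arc.qw _ _ h2.1 h2.2
    · exact Arc.yw _ _
  · rw [h, show (n+1)/3 = n/3 by omega, show (n+1)%3 = 2 by omega]
    simp only [Gm]
    split_ifs with h1 h2 h2
    · exact absurd (h2.trans h1.2.symm) h1.1.ne
    · exact Arc.pqB _ _ h1.1 h1.2
    · exact Arc.yr _ _ h2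
    · exact Arc.yy _ _ h2 h1
  · rw [h, show (n+1)/3 = n/3+1 by omega, show (n+1)%3 = 0 by omega]
    simp only [Gm]
    split_ifs with h1
    · exact Arc.wp _ _ h1.1 h1.2
    · exact Arc.wy _ _ h1

lemma Q_adj (a : ℕ) (n : ℤ) : Arc a (Q a n) (Q a (n+1)) := by
  match n with
  | Int.ofNat n => exact F_adj a n
  | Int.negSucc 0 => exact Arc.w0 a
  | Int.negSucc (n+1) => exact Gm_adj a n

/-- left inverse of `Q a` -/
def e (a : ℕ) : V → ℤ
  | z t => 4 * t
  | p t => if A t = a then 4 * t + 1 else -3 * t - 3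
  | q t => if A t = a then 4 * t + 2 else -3 * t - 2
  | r t => if A t = a then -3 * t - 2 else 4 * t + 2
  | u t _ => 4 * t + 1
  | x t _ => 4 * t + 3
  | w _ t => -3 * t - 1
  | y _ t => -3 * t - 3
  | y' _ t => -3 * t - 2

lemma e_Q (a : ℕ) (n : ℤ) : e a (Q a n) = n := by
  match n with
  | Int.ofNat n =>
    simp only [Q]
    have hn : (Int.ofNat n) = (n : ℤ) := rfl
    rw [hn]
    have h4 : n % 4 < 4 := Nat.mod_lt _ (by norm_num)
    rcases (by omega : n % 4 = 0 ∨ n % 4 = 1 ∨ n % 4 = 2 ∨ n % 4 = 3) with h | h | h | h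
    · rw [h]; simp only [F, e]; omega
    · rw [h]; simp only [F]; split_ifs with h1 <;> simp only [e, h1, if_true] <;> omega
    · rw [h]; simp only [F]; split_ifs with h1 <;> simp only [e, h1, if_true, if_false] <;> omega
    · rw [h]; simp only [F, e]; omega
  | Int.negSucc n =>
    simp only [Q]
    have hn : (Int.negSucc n) = -(n : ℤ) - 1 := by omega
    rw [hn]
    have h4 : n % 3 < 3 := Nat.mod_lt _ (by norm_num)
    rcases (by omega : n % 3 = 0 ∨ n % 3 = 1 ∨ n % 3 = 2) with h | h | h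
    · rw [h]; simp only [Gm, e]; omega
    · rw [h]; simp only [Gm]; split_ifs with h1 h2 <;> simp only [e, h1, if_true, if_false] <;> omega
    · rw [h]; simp only [Gm]; split_ifs with h1
      · have h2 : A (n/3) ≠ a := fun h3 => h1.1.ne (h3.trans h1.2.symm)
        simp only [e, h2, if_false]; omega
      · simp only [e]; omega

lemma Q_inj (a : ℕ) : Function.Injective (Q a) :=
  Function.LeftInverse.injective (e_Q a)

lemma Arc_disj {a b : ℕ} {v v' : V} (hab : a ≠ b) (hs : Nat.sqrt a = Nat.sqrt b)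
    (h1 : Arc a v v') (h2 : Arc b v v') : False := by
  cases h1 <;> cases h2 <;> simp_all [Cf]

/-! ### Inversion lemmas -/

def E (v v' : V) : Prop := ∃ a, Arc a v v'

lemma pred_w {v : V} {a t : ℕ} (h : E v (w a t)) :
    (v = r t ∧ A t = a) ∨ (v = q t ∧ Cf t ∧ B t = a) ∨ v = y' a t := by
  obtain ⟨b, h⟩ := h
  cases h <;> simp_all

lemma pred_r {v : V} {t : ℕ} (h : E v (r t)) : (∃ a, v = u t a) ∨ v = y (A t) t := by
  obtain ⟨b, h⟩ := h
  cases h <;> simp_all

lemma pred_u {v : V} {t a : ℕ} (h : E v (u t a)) : v = z t := by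
  obtain ⟨b, h⟩ := h
  cases h; rfl

lemma pred_q {v : V} {t : ℕ} (h : E v (q t)) : v = p t := by
  obtain ⟨b, h⟩ := h
  cases h <;> rfl

lemma pred_p {v : V} {t : ℕ} (h : E v (p t)) : v = z t ∨ v = w (B t) (t+1) := by
  obtain ⟨b, h⟩ := h
  cases h <;> simp_all

lemma pred_y {v : V} {a t : ℕ} (h : E v (y a t)) : v = w a (t+1) ∧ ¬ (Cf t ∧ B t = a) := by
  obtain ⟨b, h⟩ := h
  cases h with
  | wy _ _ h => exact ⟨rfl, h⟩

lemma pred_y' {v : V} {a t : ℕ} (h : E v (y' a t)) :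
    v = y a t ∧ A t ≠ a ∧ ¬ (Cf t ∧ B t = a) := by
  obtain ⟨b, h⟩ := h
  cases h with
  | yy _ _ h h' => exact ⟨rfl, h, h'⟩

lemma pred_z {v : V} {t : ℕ} (h : E v (z t)) : (∃ s a, v = x s a) ∨ ∃ a, v = w a 0 := by
  obtain ⟨b, h⟩ := h
  cases h <;> simp

lemma pred_x {v : V} {t a : ℕ} (h : E v (x t a)) : v = r t ∨ v = q t := by
  obtain ⟨b, h⟩ := h
  cases h <;> simp

lemma succ_z {v : V} {t : ℕ} (h : E (z t) v) : v = p t ∨ ∃ a, v = u t a := by
  obtain ⟨b, h⟩ := h
  cases h <;> simp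

lemma succ_u {v : V} {t a : ℕ} (h : E (u t a) v) : v = r t := by
  obtain ⟨b, h⟩ := h
  cases h; rfl

lemma succ_p {v : V} {t : ℕ} (h : E (p t) v) : v = q t := by
  obtain ⟨b, h⟩ := h
  cases h <;> rfl

lemma succ_w {v v' : V} {a t : ℕ} (h : E (w a (t+1)) v) (h' : E (w a (t+1)) v') : v = v' := by
  obtain ⟨b, h⟩ := h
  obtain ⟨b', h'⟩ := h'
  cases h <;> cases h' <;> simp_all

/-! ### Rank and segment -/

def rk : V → ℕ
  | z t => 3 * t + 4
  | p t => 3 * t + 3
  | q t => 3 * t + 2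
  | r t => 3 * t + 2
  | u t _ => 3 * t + 3
  | x _ _ => 0
  | w _ t => 3 * t + 1
  | y _ t => 3 * t + 3
  | y' _ t => 3 * t + 2

lemma rk_lt {v v' : V} (h : E v v') : (∃ t, v' = z t) ∨ rk v' < rk v := by
  obtain ⟨b, h⟩ := h
  cases h <;> simp [rk] <;> omega

def seg : V → ℕ
  | z t => t
  | p t => t
  | q t => t
  | r t => t
  | u t _ => t
  | x t _ => t
  | w _ t => t
  | y _ t => t
  | y' _ t => t

lemma seg_le {v v' : V} (h : E v v') : seg v' ≤ seg v ∨ v' = z (seg v + 1) := by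
  obtain ⟨b, h⟩ := h
  cases h <;> simp [seg]

section Ray

variable {R : ℤ → V} (hinj : Function.Injective R) (hadj : ∀ n, E (R n) (R (n+1)))

include hadj in
lemma exists_z (k : ℕ) : ∀ n : ℤ, rk (R n) ≤ k → ∃ m, n < m ∧ ∃ t, R m = z t := by
  induction k with
  | zero =>
    intro n hn
    rcases rk_lt (hadj n) with h | h
    · exact ⟨n+1, by omega, h⟩
    · omega
  | succ k ih =>
    intro n hn
    rcases rk_lt (hadj n) with h | h
    · exact ⟨n+1, by omega, h⟩
    · obtain ⟨m, hm, ht⟩ := ih (n+1) (by omega)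
      exact ⟨m, by omega, ht⟩

include hinj hadj in
lemma next_z {i : ℤ} {t : ℕ} (h : R i = z t) : ∃ j, i < j ∧ R j = z (t+1) := by
  by_contra hno
  push Not at hno
  have hseg : ∀ m : ℕ, seg (R (i + m)) ≤ t := by
    intro m
    induction m with
    | zero => simp [h, seg]
    | succ m ih =>
      have hE := hadj (i + m)
      have e1 : i + ((m+1 : ℕ) : ℤ) = i + m + 1 := by push_cast; ring
      rw [e1]
      rcases seg_le hE with h1 | h1
      · omega
      · rw [h1]
        by_cases h2 : seg (R (i+m)) = t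
        · rw [h2] at h1
          exact absurd h1 (hno _ (by omega))
        · show seg (R (i + m)) + 1 ≤ t
          omega
  have hinf : ({j : ℤ | i < j ∧ ∃ s, R j = z s}).Infinite := by
    apply Set.infinite_of_forall_exists_gt
    intro a
    obtain ⟨m, hm, hs⟩ := exists_z hadj (rk (R (max a i))) (max a i) le_rfl
    exact ⟨m, ⟨lt_of_le_of_lt (le_max_right _ _) hm, hs⟩, lt_of_le_of_lt (le_max_left _ _) hm⟩
  have himg : (R '' {j : ℤ | i < j ∧ ∃ s, R j = z s}).Infinite :=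
    hinf.image hinj.injOn
  apply himg
  apply ((Set.finite_Iic t).image z).subset
  rintro _ ⟨j, ⟨hj, s, hs⟩, rfl⟩
  refine ⟨s, ?_, hs.symm⟩
  have := hseg (j - i).toNat
  rw [show i + ((j - i).toNat : ℤ) = j by omega, hs] at this
  exact this

include hinj hadj in
lemma all_z {i : ℤ} {t : ℕ} (h : R i = z t) (T : ℕ) (hT : t < T) : ∃ j, i < j ∧ R j = z T := by
  induction T with
  | zero => omega
  | succ T ih =>
    by_cases h1 : t = T
    · subst h1; exact next_z hinj hadj h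
    · obtain ⟨j, hj, hz⟩ := ih (by omega)
      obtain ⟨j', hj', hz'⟩ := next_z hinj hadj hz
      exact ⟨j', by omega, hz'⟩

include hinj hadj in
theorem structure_thm : ∃ a s : ℕ, ∀ t, s ≤ t → (∃ i, R i = w a (t+1)) ∧
    (Cf t → B t = a → ∃ i, R i = p t ∧ R (i+1) = q t) ∧
    (A t = a → ∃ i, R i = p t ∧ R (i+1) = q t) := by
  classical
  have hex : ∃ t, ∃ i, R i = z t := by
    obtain ⟨m, _, t, ht⟩ := exists_z hadj (rk (R 0)) 0 le_rfl
    exact ⟨t, m, ht⟩
  obtain ⟨i0, hi0⟩ := Nat.find_spec hex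
  set t0 := Nat.find hex with ht0
  have hfirst : ∀ i, i < i0 → ∀ t, R i ≠ z t := by
    intro i hi t ht
    have h1 : t0 ≤ t := Nat.find_min' hex ⟨i, ht⟩
    rcases Nat.lt_or_ge t0 t with h2 | h2
    · obtain ⟨j, hj, hz⟩ := all_z hinj hadj hi0 t h2
      have := hinj (ht.trans hz.symm)
      omega
    · have : t = t0 := le_antisymm h2 h1
      subst this
      have := hinj (ht.trans hi0.symm)
      omega
  have hpred : ∀ n : ℤ, E (R (n-1)) (R n) := by
    intro n
    have := hadj (n-1)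
    rwa [sub_add_cancel] at this
  have hstep : ∀ i, i < i0 → ∀ a t, R i = w a t → R (i-3) = w a (t+1) ∧ (A t = a → R (i-1) = r t) ∧
      (Cf t → B t = a → R (i-2) = p t ∧ R (i-1) = q t) := by
    intro i hi a t hw
    have e1 := hpred i
    have e2 := hpred (i-1)
    have e3 := hpred (i-2)
    rw [show i - 1 - 1 = i - 2 by ring] at e2
    rw [show i - 2 - 1 = i - 3 by ring] at e3
    rw [hw] at e1
    rcases pred_w e1 with ⟨h1, hA⟩ | ⟨h1, hc, hB⟩ | h1
    · rw [h1] at e2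
      rcases pred_r e2 with ⟨b, h2⟩ | h2
      · rw [h2] at e3
        exact absurd (pred_u e3) (hfirst _ (by omega) _)
      · rw [h2, hA] at e3
        obtain ⟨h3, _⟩ := pred_y e3
        exact ⟨h3, fun _ => h1, fun hc hB => absurd (hA.trans hB.symm) hc.ne⟩
    · rw [h1] at e2
      have h2 := pred_q e2
      rw [h2] at e3
      rcases pred_p e3 with h3 | h3
      · exact absurd h3 (hfirst _ (by omega) _)
      · rw [hB] at h3
        exact ⟨h3, fun hA => absurd (hA.trans hB.symm) hc.ne, fun _ _ => ⟨h2, h1⟩⟩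
    · rw [h1] at e2
      obtain ⟨h2, hA, hnc⟩ := pred_y' e2
      rw [h2] at e3
      obtain ⟨h3, _⟩ := pred_y e3
      exact ⟨h3, fun h => absurd h hA, fun hc hB => absurd ⟨hc, hB⟩ hnc⟩
  have hstart : ∃ i1, i1 < i0 ∧ ∃ a t1, R i1 = w a t1 := by
    have e0 := hpred i0
    rw [hi0] at e0
    rcases pred_z e0 with ⟨s, a, h⟩ | ⟨a, h⟩
    · have e1 := hpred (i0-1)
      have e2 := hpred (i0-2)
      have e3 := hpred (i0-3)
      rw [show i0 - 1 - 1 = i0 - 2 by ring] at e1
      rw [show i0 - 2 - 1 = i0 - 3 by ring] at e2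
      rw [show i0 - 3 - 1 = i0 - 4 by ring] at e3
      rw [h] at e1
      rcases pred_x e1 with h1 | h1
      · rw [h1] at e2
        rcases pred_r e2 with ⟨b, h2⟩ | h2
        · rw [h2] at e3
          exact absurd (pred_u e3) (hfirst _ (by omega) _)
        · rw [h2] at e3
          exact ⟨i0-4, by omega, _, _, (pred_y e3).1⟩
      · rw [h1] at e2
        have h2 := pred_q e2
        rw [h2] at e3
        rcases pred_p e3 with h3 | h3
        · exact absurd h3 (hfirst _ (by omega) _)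
        · exact ⟨i0-4, by omega, _, _, h3⟩
    · exact ⟨i0-1, by omega, a, 0, h⟩
  obtain ⟨i1, hi1, a, t1, hw⟩ := hstart
  have hlane : ∀ m : ℕ, R (i1 - 3*m) = w a (t1+m) := by
    intro m
    induction m with
    | zero => simpa using hw
    | succ m ih =>
      have := (hstep _ (by omega) _ _ ih).1
      rw [show i1 - 3 * ((m+1 : ℕ) : ℤ) = i1 - 3 * m - 3 by push_cast; ring]
      exact this
  refine ⟨a, max t1 (t0+1), ?_⟩
  intro t ht
  obtain ⟨m, rfl⟩ : ∃ m, t = t1 + m := ⟨t - t1, by omega⟩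
  have hwt := hlane m
  obtain ⟨g1, g2, g3⟩ := hstep _ (by omega) _ _ hwt
  refine ⟨⟨_, g1⟩, ?_, ?_⟩
  · intro hc hB
    obtain ⟨g4, g5⟩ := g3 hc hB
    refine ⟨_, g4, ?_⟩
    rw [show i1 - 3 * (m:ℤ) - 2 + 1 = i1 - 3 * m - 1 by ring]
    exact g5
  · intro hA
    have g4 := g2 hA
    obtain ⟨j, hj, hz⟩ := all_z hinj hadj hi0 (t1+m) (by omega)
    have e1 := hadj j
    rw [hz] at e1
    rcases succ_z e1 with h1 | ⟨b, h1⟩
    · have e2 := hadj (j+1)
      rw [h1] at e2
      exact ⟨j+1, h1, succ_p e2⟩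
    · have e2 := hadj (j+1)
      rw [h1] at e2
      have h2 := succ_u e2
      have := hinj (h2.trans g4.symm)
      omega

end Ray

theorem main : ¬ (∀ (V : Type) (G : Digraph V),
      (∀ k : ℕ, ∃ R : Fin k → ℤ → V,
        (∀ i, Function.Injective (R i)) ∧
        (∀ i n, G.Adj (R i n) (R i (n + 1))) ∧
        (∀ i j, i ≠ j → ∀ m n : ℤ,
          ¬ (R i m = R j n ∧ R i (m + 1) = R j (n + 1)))) →
      ∃ R : ℕ → ℤ → V,
        (∀ i, Function.Injective (R i)) ∧
        (∀ i n, G.Adj (R i n) (R i (n + 1))) ∧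
        (∀ i j, i ≠ j → ∀ m n : ℤ,
          ¬ (R i m = R j n ∧ R i (m + 1) = R j (n + 1)))) := by
  intro H
  obtain ⟨R, hinj, hadj, hdis⟩ := H V G (by
    intro k
    refine ⟨fun i => Q (k * k + i), fun i => Q_inj _, fun i n => ⟨_, Q_adj _ n⟩, ?_⟩
    intro i j hij m n ⟨h1, h2⟩
    have hne : k * k + (i : ℕ) ≠ k * k + j := by
      intro h
      apply hij
      apply Fin.ext
      omega
    refine Arc_disj (a := k * k + i) (b := k * k + j) hne ?_ (Q_adj _ m) ?_
    · rw [Nat.sqrt_add_eq k (by omega : (i:ℕ) ≤ k + k), Nat.sqrt_add_eq k (by omega : (j:ℕ) ≤ k + k)]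
    · have h1' : Q (k * k + i) m = Q (k * k + j) n := h1
      have h2' : Q (k * k + i) (m+1) = Q (k * k + j) (n+1) := h2
      rw [h1', h2']
      exact Q_adj _ n)
  choose f s hf using fun i => structure_thm (hinj i) (fun n => hadj i n)
  have hfinj : Function.Injective f := by
    intro i j hij
    by_contra hne
    have h1 := (hf i (max (s i) (s j)) (le_max_left _ _)).1
    have h2 := (hf j (max (s i) (s j)) (le_max_right _ _)).1
    obtain ⟨m, hm⟩ := h1
    obtain ⟨n, hn⟩ := h2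
    rw [← hij] at hn
    refine hdis i j hne m n ⟨hm.trans hn.symm, ?_⟩
    have e1 : E (R i m) (R i (m+1)) := hadj i m
    have e2 : E (R j n) (R j (n+1)) := hadj j n
    rw [hm] at e1
    rw [hn] at e2
    exact succ_w e1 e2
  have hcol : ∀ i, Nat.sqrt (f i) = Nat.sqrt (f 0) := by
    intro i
    by_contra hne
    have hi0 : i ≠ 0 := by rintro rfl; exact hne rfl
    obtain ⟨t, ht, hA, hB⟩ := freq (f i) (f 0) (max (s i) (s 0))
    have hc : Cf t := by unfold Cf; rw [hA, hB]; exact hne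
    obtain ⟨m, hm1, hm2⟩ := (hf i t (le_trans (le_max_left _ _) ht)).2.2 hA
    obtain ⟨n, hn1, hn2⟩ := (hf 0 t (le_trans (le_max_right _ _) ht)).2.1 hc hB
    exact hdis i 0 hi0 m n ⟨hm1.trans hn1.symm, hm2.trans hn2.symm⟩
  have hinf := Set.infinite_range_of_injective hfinj
  apply hinf
  apply (Set.finite_Iio ((Nat.sqrt (f 0) + 1) * (Nat.sqrt (f 0) + 1))).subset
  rintro _ ⟨i, rfl⟩
  have := Nat.lt_succ_sqrt (f i)
  rw [hcol i] at this
  exact this

end Pool.Agent.H798R3.DirRay
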