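import Mathlib

set_option autoImplicit false
open Classical

namespace Pool.Agent.H798R3.Eppa

variable {V : Type}

/-- the double sum over the two classes -/
noncomputable def Q (cls : V → Bool) (Ed : V → V → ZMod 2) (e : Finset V) : ZMod 2 :=
  ∑ x ∈ e.filter (fun w => cls w = true), ∑ y ∈ e.filter (fun w => cls w = false), Ed x y

/-- hyperedges of the three-graph of a bipartite graph -/
def Hyp (cls : V → Bool) (Ed : V → V → ZMod 2) (e : Finset V) : Prop :=
  (e.filter (fun w => cls w = true)).card = 2 ∧ (e.filter (fun w => cls w = false)).card = 2 ∧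
    Q cls Ed e = 1

lemma z2 (z : ZMod 2) : z = 0 ∨ z = 1 := by
  revert z; decide

lemma z2_ind (z : ZMod 2) : (if z = 1 then (1 : ZMod 2) else 0) = z := by
  rcases z2 z with h | h <;> simp [h]

lemma z2_eq_of_iff {a b : ZMod 2} (h : a = 1 ↔ b = 1) : a = b := by
  rcases z2 a with ha | ha <;> rcases z2 b with hb | hb <;> simp_all

lemma z2_self (a : ZMod 2) : a + a = 0 := CharTwo.add_self_eq_zero a

lemma card_split (cls : V → Bool) (e : Finset V) :
    (e.filter (fun w => cls w = true)).card + (e.filter (fun w => cls w = false)).card = e.card := by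
  have := Finset.card_filter_add_card_filter_not (s := e) (fun w => cls w = true)
  simpa using this

lemma Hyp_card {cls : V → Bool} {Ed : V → V → ZMod 2} {e : Finset V} (h : Hyp cls Ed e) :
    e.card = 4 := by
  rw [← card_split cls e, h.1, h.2.1]

lemma Hyp_filter {cls : V → Bool} {Ed : V → V → ZMod 2} {e : Finset V} (h : Hyp cls Ed e)
    (v : V) : (e.filter (fun w => cls v = cls w)).card = 2 := by
  cases hv : cls v with
  | true =>
    rw [← h.1]
    congr 1
    ext w
    simp only [Finset.mem_filter]
    exact ⟨fun h => ⟨h.1, h.2.symm⟩, fun h => ⟨h.1, h.2.symm⟩⟩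
  | false =>
    rw [← h.2.1]
    congr 1
    ext w
    simp only [Finset.mem_filter]
    exact ⟨fun h => ⟨h.1, h.2.symm⟩, fun h => ⟨h.1, h.2.symm⟩⟩

lemma Hyp_not {cls : V → Bool} {Ed : V → V → ZMod 2} (hs : ∀ x y, Ed x y = Ed y x) (e : Finset V) :
    Hyp (fun v => !cls v) Ed e ↔ Hyp cls Ed e := by
  have h1 : e.filter (fun w => (!cls w) = true) = e.filter (fun w => cls w = false) := by
    ext w; simp
  have h2 : e.filter (fun w => (!cls w) = false) = e.filter (fun w => cls w = true) := by
    ext w; simp
  have h3 : Q (fun v => !cls v) Ed e = Q cls Ed e := by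
    unfold Q
    rw [h1, h2, Finset.sum_comm]
    apply Finset.sum_congr rfl
    intro x _
    apply Finset.sum_congr rfl
    intro y _
    exact hs _ _
  unfold Hyp
  rw [h1, h2, h3]
  tauto

lemma parity_card [Fintype V] (cls : V → Bool) (Ed : V → V → ZMod 2) (S : Finset V) (hS : S.card = 5) :
    (((Finset.univ.filter (fun e => Hyp cls Ed e)).filter (fun e => e ⊆ S)).card : ZMod 2) =
      ∑ w ∈ S, (if Hyp cls Ed (S.erase w) then (1 : ZMod 2) else 0) := by
  have himg : ((Finset.univ.filter (fun e => Hyp cls Ed e)).filter (fun e => e ⊆ S)) =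
      (S.filter (fun w => Hyp cls Ed (S.erase w))).image (fun w => S.erase w) := by
    ext e
    simp only [Finset.mem_filter, Finset.mem_univ, true_and, Finset.mem_image]
    constructor
    · rintro ⟨he, heS⟩
      have hc : (S \ e).card = 1 := by
        rw [Finset.card_sdiff_of_subset heS, hS, Hyp_card he]
      obtain ⟨w, hw⟩ := Finset.card_eq_one.1 hc
      have hwS : w ∈ S := (Finset.mem_sdiff.1 (hw ▸ Finset.mem_singleton_self w)).1
      have hwe : S.erase w = e := by
        rw [← Finset.sdiff_singleton_eq_erase, ← hw, Finset.sdiff_sdiff_eq_self heS]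
      refine ⟨w, ⟨hwS, ?_⟩, hwe⟩
      rw [hwe]
      exact he
    · rintro ⟨w, ⟨_, hw⟩, rfl⟩
      exact ⟨hw, Finset.erase_subset _ _⟩
  rw [himg, Finset.card_image_of_injOn]
  · rw [Finset.sum_ite, Finset.sum_const_zero, add_zero]
    simp
  · intro a ha b hb hab
    simp only [Finset.coe_filter, Set.mem_ofPred_eq] at ha hb
    by_contra hne
    have h1 : a ∈ S.erase b := Finset.mem_erase.2 ⟨hne, ha.1⟩
    simp only at hab
    rw [← hab] at h1
    exact (Finset.notMem_erase a S) h1

lemma parity32 [Fintype V] (cls : V → Bool) (Ed : V → V → ZMod 2) (S : Finset V) (hS : S.card = 5)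
    (hT : (S.filter (fun w => cls w = true)).card = 3)
    (hF : (S.filter (fun w => cls w = false)).card = 2) :
    (((Finset.univ.filter (fun e => Hyp cls Ed e)).filter (fun e => e ⊆ S)).card : ZMod 2) = 0 := by
  rw [parity_card cls Ed S hS]
  set T := S.filter (fun w => cls w = true) with hTdef
  set F := S.filter (fun w => cls w = false) with hFdef
  have hTerase : ∀ w, (S.erase w).filter (fun w => cls w = true) = T.erase w := by
    intro w
    rw [hTdef, Finset.filter_erase]
  have hFerase : ∀ w, (S.erase w).filter (fun w => cls w = false) = F.erase w := by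
    intro w
    rw [hFdef, Finset.filter_erase]
  have hsplit : ∑ w ∈ S, (if Hyp cls Ed (S.erase w) then (1 : ZMod 2) else 0) =
      ∑ w ∈ T, (if Hyp cls Ed (S.erase w) then (1 : ZMod 2) else 0) +
      ∑ w ∈ F, (if Hyp cls Ed (S.erase w) then (1 : ZMod 2) else 0) := by
    have := (Finset.sum_filter_add_sum_filter_not S (fun w => cls w = true)
      (fun w => (if Hyp cls Ed (S.erase w) then (1 : ZMod 2) else 0))).symm
    rw [this, hTdef, hFdef]
    congr 2
    ext w; simp
  rw [hsplit]
  have hFz : ∑ w ∈ F, (if Hyp cls Ed (S.erase w) then (1 : ZMod 2) else 0) = 0 := by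
    apply Finset.sum_eq_zero
    intro w hw
    rw [if_neg]
    intro h
    have := h.2.1
    rw [hFerase, Finset.card_erase_of_mem hw, hF] at this
    omega
  rw [hFz, add_zero]
  have hTv : ∀ w ∈ T, (if Hyp cls Ed (S.erase w) then (1 : ZMod 2) else 0) =
      ∑ x ∈ T, (∑ y ∈ F, Ed x y) + ∑ y ∈ F, Ed w y := by
    intro w hw
    have hwF : w ∉ F := by
      rw [hFdef]
      rw [hTdef] at hw
      have := (Finset.mem_filter.1 hw).2
      simp [this]
    have h1 : Hyp cls Ed (S.erase w) ↔ Q cls Ed (S.erase w) = 1 := by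
      unfold Hyp
      rw [hTerase, hFerase, Finset.card_erase_of_mem hw, hT, Finset.erase_eq_of_notMem hwF, hF]
      simp
    simp only [h1]
    rw [z2_ind]
    unfold Q
    rw [hTerase, hFerase, Finset.erase_eq_of_notMem hwF,
      ← Finset.add_sum_erase T (fun x => ∑ y ∈ F, Ed x y) hw]
    rw [add_comm (∑ y ∈ F, Ed w y), add_assoc, z2_self, add_zero]
  rw [Finset.sum_congr rfl hTv, Finset.sum_add_distrib, Finset.sum_const, hT]
  rw [show (3 : ℕ) • (∑ x ∈ T, ∑ y ∈ F, Ed x y) = (∑ x ∈ T, ∑ y ∈ F, Ed x y) from by
    rw [show (3 : ℕ) = 2 + 1 from rfl, add_smul, two_smul, one_smul, z2_self, zero_add]]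
  exact z2_self _

lemma parity [Fintype V] (cls : V → Bool) (Ed : V → V → ZMod 2) (hs : ∀ x y, Ed x y = Ed y x)
    (S : Finset V) (hS : S.card = 5)
    (h3 : ∀ v ∈ S, (S.filter (fun w => cls v = cls w)).card ≤ 3) :
    Even (((Finset.univ.filter (fun e => Hyp cls Ed e)).filter (fun e => e ⊆ S)).card) := by
  have hb : ∀ b : Bool, (S.filter (fun w => cls w = b)).card ≤ 3 := by
    intro b
    by_cases hne : (S.filter (fun w => cls w = b)).Nonempty
    · obtain ⟨v, hv⟩ := hne
      have hv' := Finset.mem_filter.1 hv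
      have := h3 v hv'.1
      rw [hv'.2] at this
      have he : S.filter (fun w => cls w = b) = S.filter (fun w => b = cls w) := by
        ext w
        simp only [Finset.mem_filter]
        exact ⟨fun h => ⟨h.1, h.2.symm⟩, fun h => ⟨h.1, h.2.symm⟩⟩
      rw [he]
      exact this
    · rw [Finset.not_nonempty_iff_eq_empty] at hne
      rw [hne]; simp
  have hT := hb true
  have hF := hb false
  have hsum := card_split cls S
  rw [hS] at hsum
  rw [← ZMod.natCast_eq_zero_iff_even]
  rcases Nat.lt_or_ge (S.filter (fun w => cls w = true)).card 3 with h | h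
  · have h2 : (S.filter (fun w => cls w = true)).card = 2 := by omega
    have h3' : (S.filter (fun w => cls w = false)).card = 3 := by omega
    have := parity32 (fun v => !cls v) Ed S hS (by simpa using h3') (by simpa using h2)
    simpa only [Hyp_not hs] using this
  · have h2 : (S.filter (fun w => cls w = true)).card = 3 := by omega
    have h3' : (S.filter (fun w => cls w = false)).card = 2 := by omega
    exact parity32 cls Ed S hS h2 h3'

/-- quadruple formula -/
lemma Hyp_quad [DecidableEq V] {cls : V → Bool} {Ed : V → V → ZMod 2} {a a' b b' : V}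
    (haa : a ≠ a') (hbb : b ≠ b') (ha : cls a = true) (ha' : cls a' = true)
    (hb : cls b = false) (hb' : cls b' = false) :
    Hyp cls Ed {a, a', b, b'} ↔ Ed a b + Ed a b' + (Ed a' b + Ed a' b') = 1 := by
  have hT : ({a, a', b, b'} : Finset V).filter (fun w => cls w = true) = {a, a'} := by
    ext w
    simp only [Finset.mem_filter, Finset.mem_insert, Finset.mem_singleton]
    constructor
    · rintro ⟨rfl | rfl | rfl | rfl, h⟩
      · exact Or.inl rfl
      · exact Or.inr rfl
      · rw [hb] at h; exact absurd h (by decide)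
      · rw [hb'] at h; exact absurd h (by decide)
    · rintro (rfl | rfl)
      · exact ⟨Or.inl rfl, ha⟩
      · exact ⟨Or.inr (Or.inl rfl), ha'⟩
  have hF : ({a, a', b, b'} : Finset V).filter (fun w => cls w = false) = {b, b'} := by
    ext w
    simp only [Finset.mem_filter, Finset.mem_insert, Finset.mem_singleton]
    constructor
    · rintro ⟨rfl | rfl | rfl | rfl, h⟩
      · rw [ha] at h; exact absurd h (by decide)
      · rw [ha'] at h; exact absurd h (by decide)
      · exact Or.inl rfl
      · exact Or.inr rfl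
    · rintro (rfl | rfl)
      · exact ⟨Or.inr (Or.inr (Or.inl rfl)), hb⟩
      · exact ⟨Or.inr (Or.inr (Or.inr rfl)), hb'⟩
  unfold Hyp Q
  rw [hT, hF, Finset.card_pair haa, Finset.card_pair hbb, Finset.sum_pair haa, Finset.sum_pair hbb,
    Finset.sum_pair hbb]
  simp

/-- same with arbitrary orientation of classes -/
lemma Hyp_quad' [DecidableEq V] {cls : V → Bool} {Ed : V → V → ZMod 2} (hs : ∀ x y, Ed x y = Ed y x) {a a' b b' : V}
    (haa : a ≠ a') (hbb : b ≠ b') (ha : cls a = cls a') (hb : cls b = cls b')
    (hab : cls a ≠ cls b) :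
    Hyp cls Ed {a, a', b, b'} ↔ Ed a b + Ed a b' + (Ed a' b + Ed a' b') = 1 := by
  cases hca : cls a with
  | true =>
    have hcb : cls b = false := by
      cases h : cls b with
      | true => exact absurd (hca.trans h.symm) hab
      | false => rfl
    exact Hyp_quad haa hbb hca (ha ▸ hca) hcb (hb ▸ hcb)
  | false =>
    have hcb : cls b = true := by
      cases h : cls b with
      | true => rfl
      | false => exact absurd (hca.trans h.symm) hab
    rw [← Hyp_not hs]
    apply Hyp_quad haa hbb <;> simp [hca, hcb, ← ha, ← hb]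

end Pool.Agent.H798R3.Eppa
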