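import Pool.Agent.H798R3.Eppa

set_option autoImplicit false
open Classical

namespace Pool.Agent.H798R3.Eppa

lemma transfer0 {V V' : Type} {cls : V → Bool} {cls' : V' → Bool}
    {Ed : V → V → ZMod 2} {Ed' : V' → V' → ZMod 2} (f : V' ↪ V)
    (hc : ∀ v, cls (f v) = cls' v) (t : V' → ZMod 2)
    (hE : ∀ x y, cls' x ≠ cls' y → Ed (f x) (f y) = Ed' x y + t x + t y) (e : Finset V') :
    Hyp cls' Ed' e ↔ Hyp cls Ed (e.map f) := by
  have hfil : ∀ b, (e.map f).filter (fun w => cls w = b) = (e.filter (fun w => cls' w = b)).map f := by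
    intro b
    rw [Finset.filter_map]
    congr 1
    ext w
    simp [hc]
  unfold Hyp
  rw [hfil, hfil, Finset.card_map, Finset.card_map]
  refine and_congr_right (fun h1 => and_congr_right (fun h2 => ?_))
  have : Q cls Ed (e.map f) = Q cls' Ed' e := by
    unfold Q
    rw [hfil, hfil]
    simp only [Finset.sum_map]
    have : ∀ x ∈ e.filter (fun w => cls' w = true), ∑ y ∈ e.filter (fun w => cls' w = false),
        Ed (f x) (f y) = ∑ y ∈ e.filter (fun w => cls' w = false), Ed' x y +
          ∑ y ∈ e.filter (fun w => cls' w = false), t y := by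
      intro x hx
      have hx' := (Finset.mem_filter.1 hx).2
      have : ∀ y ∈ e.filter (fun w => cls' w = false), Ed (f x) (f y) = Ed' x y + t x + t y := by
        intro y hy
        have hy' := (Finset.mem_filter.1 hy).2
        apply hE
        rw [hx', hy']
        decide
      rw [Finset.sum_congr rfl this, Finset.sum_add_distrib, Finset.sum_add_distrib,
        Finset.sum_const, h2, two_smul, z2_self, add_zero]
    rw [Finset.sum_congr rfl this, Finset.sum_add_distrib, Finset.sum_const, h1, two_smul, z2_self,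
      add_zero]
  rw [this]

lemma transfer {V V' : Type} {cls : V → Bool} {cls' : V' → Bool}
    {Ed : V → V → ZMod 2} {Ed' : V' → V' → ZMod 2} (hs : ∀ x y, Ed x y = Ed y x) (f : V' ↪ V)
    (s : Bool) (hc : ∀ v, cls (f v) = xor (cls' v) s) (t : V' → ZMod 2)
    (hE : ∀ x y, cls' x ≠ cls' y → Ed (f x) (f y) = Ed' x y + t x + t y) (e : Finset V') :
    Hyp cls' Ed' e ↔ Hyp cls Ed (e.map f) := by
  cases s with
  | false => exact transfer0 f (by simpa using hc) t hE e
  | true =>
    rw [← Hyp_not hs]
    exact transfer0 (cls := fun v => !cls v) f (by simp [hc]) t hE e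

lemma extend_perm {I : Type} [Fintype I] (p : I → I) (A : Finset I) (hp : Set.InjOn p (A : Set I)) :
    ∃ τ : I ≃ I, ∀ x ∈ A, τ x = p x := by
  obtain ⟨g, hg⟩ := Finset.exists_equiv_extend_of_card_eq (α := I) (β := I) (t := Finset.univ)
    (by simp) (s := A) (f := p) (Finset.subset_univ _) hp
  refine ⟨g.trans (Equiv.subtypeUnivEquiv (fun x => Finset.mem_univ x)), ?_⟩
  intro x hx
  rw [← hg x hx]
  rfl

section rep

variable {n : ℕ} {rA : Fin n → Fin n → Prop} {HA : Finset (Finset (Fin n))}

/-- indicator of the 4-set -/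
noncomputable def I4 (HA : Finset (Finset (Fin n))) (x x' y y' : Fin n) : ZMod 2 :=
  if ({x, x', y, y'} : Finset (Fin n)) ∈ HA then 1 else 0

lemma I4_comm1 (x x' y y' : Fin n) : I4 HA x x' y y' = I4 HA x' x y y' := by
  unfold I4
  rw [show ({x, x', y, y'} : Finset (Fin n)) = {x', x, y, y'} from by ext; simp; tauto]

lemma I4_comm2 (x x' y y' : Fin n) : I4 HA x x' y y' = I4 HA y y' x x' := by
  unfold I4
  rw [show ({x, x', y, y'} : Finset (Fin n)) = {y, y', x, x'} from by ext; simp; tauto]

lemma I4_deg (h4 : ∀ e ∈ HA, e.card = 4) (x y y' : Fin n) : I4 HA x x y y' = 0 := by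
  unfold I4
  rw [if_neg]
  intro h
  have h1 := h4 _ h
  have h2 : ({x, x, y, y'} : Finset (Fin n)).card ≤ 3 := by
    rw [Finset.insert_idem]
    exact Finset.card_le_three
  omega

lemma parity_card' (h4 : ∀ e ∈ HA, e.card = 4) (S : Finset (Fin n)) (hS : S.card = 5) :
    (((HA.filter (fun e => e ⊆ S)).card : ℕ) : ZMod 2) =
      ∑ w ∈ S, (if S.erase w ∈ HA then (1 : ZMod 2) else 0) := by
  have himg : (HA.filter (fun e => e ⊆ S)) =
      (S.filter (fun w => S.erase w ∈ HA)).image (fun w => S.erase w) := by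
    ext e
    simp only [Finset.mem_filter, Finset.mem_image]
    constructor
    · rintro ⟨he, heS⟩
      have hc : (S \ e).card = 1 := by
        rw [Finset.card_sdiff_of_subset heS, hS, h4 e he]
      obtain ⟨w, hw⟩ := Finset.card_eq_one.1 hc
      have hwS : w ∈ S := (Finset.mem_sdiff.1 (hw ▸ Finset.mem_singleton_self w)).1
      have hwe : S.erase w = e := by
        rw [← Finset.sdiff_singleton_eq_erase, ← hw, Finset.sdiff_sdiff_eq_self heS]
      refine ⟨w, ⟨hwS, ?_⟩, hwe⟩
      rw [hwe]
      exact he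
    · rintro ⟨w, ⟨_, hw⟩, rfl⟩
      exact ⟨hw, Finset.erase_subset _ _⟩
  rw [himg, Finset.card_image_of_injOn]
  · rw [Finset.sum_ite, Finset.sum_const_zero, add_zero]
    simp
  · intro a ha b hb hab
    simp only [Finset.coe_filter, Set.mem_ofPred_eq] at ha hb
    by_contra hne
    have h1 : a ∈ S.erase b := Finset.mem_erase.2 ⟨hne, ha.1⟩
    simp only at hab
    rw [← hab] at h1
    exact (Finset.notMem_erase a S) h1

lemma cocycle (hEq : Equivalence rA)
    (h4 : ∀ e ∈ HA, e.card = 4 ∧ ∀ v ∈ e, (e.filter (fun w => rA v w)).card = 2)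
    (h5 : ∀ S : Finset (Fin n), S.card = 5 →
          (∀ v ∈ S, (S.filter (fun w => rA v w)).card ≤ 3) →
          Even (HA.filter (fun e => e ⊆ S)).card)
    {x x' x'' y y' : Fin n} (h1 : rA x x') (h2 : rA x x'') (h3 : ¬ rA x y) (h6 : rA y y') :
    I4 HA x x' y y' + I4 HA x' x'' y y' + I4 HA x x'' y y' = 0 := by
  have h4' : ∀ e ∈ HA, e.card = 4 := fun e he => (h4 e he).1
  by_cases e1 : x = x'
  · subst e1
    rw [I4_deg h4', zero_add, z2_self]
  by_cases e2 : x' = x''
  · subst e2
    rw [I4_deg h4', add_zero, z2_self]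
  by_cases e3 : x = x''
  · subst e3
    rw [I4_deg h4', add_zero, I4_comm1, z2_self]
  by_cases e4 : y = y'
  · subst e4
    have : ∀ a b, I4 HA a b y y = 0 := by
      intro a b
      rw [I4_comm2, I4_deg h4']
    simp [this]
  have nxy : ∀ {a b}, rA x a → rA y b → ¬ rA a b := by
    intro a b ha hb hab
    exact h3 (hEq.trans ha (hEq.trans hab (hEq.symm hb)))
  have nexy : ∀ {a b}, rA x a → rA y b → a ≠ b := by
    intro a b ha hb hab
    subst hab
    exact nxy ha hb (hEq.refl a)
  have rxx := hEq.refl x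
  have ryy := hEq.refl y
  have d1 := nexy rxx ryy
  have d2 := nexy rxx h6
  have d3 := nexy h1 ryy
  have d4 := nexy h1 h6
  have d5 := nexy h2 ryy
  have d6 := nexy h2 h6
  set S : Finset (Fin n) := {x, x', x'', y, y'} with hSdef
  have hS : S.card = 5 := by
    rw [hSdef, Finset.card_insert_of_notMem, Finset.card_insert_of_notMem,
      Finset.card_insert_of_notMem, Finset.card_insert_of_notMem, Finset.card_singleton]
    · simpa using e4
    · simp [d5, d6]
    · simp [e2, d3, d4]
    · simp [e1, e3, d1, d2]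
  have hX : ∀ v, rA x v → S.filter (fun w => rA v w) = {x, x', x''} := by
    intro v hv
    ext w
    simp only [hSdef, Finset.mem_filter, Finset.mem_insert, Finset.mem_singleton]
    constructor
    · rintro ⟨hw | hw | hw | hw | hw, hr⟩
      · exact Or.inl hw
      · exact Or.inr (Or.inl hw)
      · exact Or.inr (Or.inr hw)
      · subst hw
        exact absurd hr (nxy hv ryy)
      · subst hw
        exact absurd hr (nxy hv h6)
    · rintro (rfl | rfl | rfl)
      · exact ⟨Or.inl rfl, hEq.symm hv⟩
      · exact ⟨Or.inr (Or.inl rfl), hEq.trans (hEq.symm hv) h1⟩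
      · exact ⟨Or.inr (Or.inr (Or.inl rfl)), hEq.trans (hEq.symm hv) h2⟩
  have hY : ∀ v, rA y v → S.filter (fun w => rA v w) = {y, y'} := by
    intro v hv
    ext w
    simp only [hSdef, Finset.mem_filter, Finset.mem_insert, Finset.mem_singleton]
    constructor
    · rintro ⟨hw | hw | hw | hw | hw, hr⟩
      · subst hw
        exact absurd (hEq.symm hr) (nxy rxx hv)
      · subst hw
        exact absurd (hEq.symm hr) (nxy h1 hv)
      · subst hw
        exact absurd (hEq.symm hr) (nxy h2 hv)
      · exact Or.inl hw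
      · exact Or.inr hw
    · rintro (rfl | rfl)
      · exact ⟨Or.inr (Or.inr (Or.inr (Or.inl rfl))), hEq.symm hv⟩
      · exact ⟨Or.inr (Or.inr (Or.inr (Or.inr rfl))), hEq.trans (hEq.symm hv) h6⟩
  have hev := h5 S hS (by
    intro v hv
    have : rA x v ∨ rA y v := by
      rw [hSdef] at hv
      simp only [Finset.mem_insert, Finset.mem_singleton] at hv
      rcases hv with rfl | rfl | rfl | rfl | rfl
      · exact Or.inl rxx
      · exact Or.inl h1
      · exact Or.inl h2
      · exact Or.inr ryy
      · exact Or.inr h6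
    rcases this with h | h
    · rw [hX v h]; exact Finset.card_le_three
    · rw [hY v h]; exact Finset.card_le_two.trans (by norm_num))
  rw [← ZMod.natCast_eq_zero_iff_even, parity_card' h4' S hS] at hev
  have s1 : S.erase x = {x', x'', y, y'} := by
    ext w
    simp only [hSdef, Finset.mem_erase, Finset.mem_insert, Finset.mem_singleton]
    constructor
    · rintro ⟨h, rfl | h'⟩
      · exact absurd rfl h
      · exact h'
    · intro h
      refine ⟨?_, Or.inr h⟩
      rcases h with rfl | rfl | rfl | rfl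
      · exact Ne.symm e1
      · exact Ne.symm e3
      · exact Ne.symm d1
      · exact Ne.symm d2
  have s2 : S.erase x' = {x, x'', y, y'} := by
    ext w
    simp only [hSdef, Finset.mem_erase, Finset.mem_insert, Finset.mem_singleton]
    constructor
    · rintro ⟨h, rfl | rfl | h'⟩
      · exact Or.inl rfl
      · exact absurd rfl h
      · exact Or.inr h'
    · rintro (rfl | rfl | rfl | rfl)
      · exact ⟨e1, Or.inl rfl⟩
      · exact ⟨Ne.symm e2, Or.inr (Or.inr (Or.inl rfl))⟩
      · exact ⟨Ne.symm d3, Or.inr (Or.inr (Or.inr (Or.inl rfl)))⟩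
      · exact ⟨Ne.symm d4, Or.inr (Or.inr (Or.inr (Or.inr rfl)))⟩
  have s3 : S.erase x'' = {x, x', y, y'} := by
    ext w
    simp only [hSdef, Finset.mem_erase, Finset.mem_insert, Finset.mem_singleton]
    constructor
    · rintro ⟨h, rfl | rfl | rfl | h'⟩
      · exact Or.inl rfl
      · exact Or.inr (Or.inl rfl)
      · exact absurd rfl h
      · exact Or.inr (Or.inr h')
    · rintro (rfl | rfl | rfl | rfl)
      · exact ⟨e3, Or.inl rfl⟩
      · exact ⟨e2, Or.inr (Or.inl rfl)⟩
      · exact ⟨Ne.symm d5, Or.inr (Or.inr (Or.inr (Or.inl rfl)))⟩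
      · exact ⟨Ne.symm d6, Or.inr (Or.inr (Or.inr (Or.inr rfl)))⟩
  have hyS : y ∈ S := by simp [hSdef]
  have hyS' : y' ∈ S := by simp [hSdef]
  have s4 : S.erase y ∉ HA := by
    intro h
    have hy' : y' ∈ S.erase y := Finset.mem_erase.2 ⟨Ne.symm e4, hyS'⟩
    have := (h4 _ h).2 y' hy'
    rw [Finset.filter_erase, hY y' h6, Finset.card_erase_of_mem (by simp), Finset.card_pair e4] at this
    omega
  have s5 : S.erase y' ∉ HA := by
    intro h
    have hy' : y ∈ S.erase y' := Finset.mem_erase.2 ⟨e4, hyS⟩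
    have := (h4 _ h).2 y hy'
    rw [Finset.filter_erase, hY y ryy, Finset.card_erase_of_mem (by simp), Finset.card_pair e4] at this
    omega
  have hsum : ∑ w ∈ S, (if S.erase w ∈ HA then (1 : ZMod 2) else 0) =
      (if S.erase x ∈ HA then (1 : ZMod 2) else 0) + ((if S.erase x' ∈ HA then (1 : ZMod 2) else 0) +
      ((if S.erase x'' ∈ HA then (1 : ZMod 2) else 0) + ((if S.erase y ∈ HA then (1 : ZMod 2) else 0)
       + (if S.erase y' ∈ HA then (1 : ZMod 2) else 0)))) := by
    conv_lhs => rw [show ∑ w ∈ S, (if S.erase w ∈ HA then (1 : ZMod 2) else 0) =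
      ∑ w ∈ ({x, x', x'', y, y'} : Finset (Fin n)), (if S.erase w ∈ HA then (1 : ZMod 2) else 0) from rfl]
    rw [Finset.sum_insert, Finset.sum_insert, Finset.sum_insert, Finset.sum_insert,
      Finset.sum_singleton]
    · simpa using e4
    · simp [d5, d6]
    · simp [e2, d3, d4]
    · simp [e1, e3, d1, d2]
  rw [hsum, if_neg s4, if_neg s5, s1, s2, s3] at hev
  unfold I4
  linear_combination hev

end rep

end Pool.Agent.H798R3.Eppa
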