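import Pool.Agent.H798R3.Eppa2

set_option autoImplicit false
open Classical

namespace Pool.Agent.H798R3.Eppa

variable {n : ℕ} {rA : Fin n → Fin n → Prop} {HA : Finset (Finset (Fin n))}

theorem exists_rep (hEq : Equivalence rA) (h3 : ∀ a b c, rA a b ∨ rA b c ∨ rA a c)
    (h4 : ∀ e ∈ HA, e.card = 4 ∧ ∀ v ∈ e, (e.filter (fun w => rA v w)).card = 2)
    (h5 : ∀ S : Finset (Fin n), S.card = 5 →
          (∀ v ∈ S, (S.filter (fun w => rA v w)).card ≤ 3) →
          Even (HA.filter (fun e => e ⊆ S)).card) :
    ∃ (c : Fin n → Bool) (E : Fin n → Fin n → ZMod 2), (∀ a b, rA a b ↔ c a = c b) ∧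
      (∀ x y, E x y = E y x) ∧ ∀ e, e ∈ HA ↔ Hyp c E e := by
  by_cases hall : ∀ a b, rA a b
  · refine ⟨fun _ => true, fun _ _ => 0, by simp [hall], by simp, ?_⟩
    intro e
    constructor
    · intro he
      exfalso
      obtain ⟨hc, hv⟩ := h4 e he
      have hne : e.Nonempty := by
        rw [← Finset.card_pos]; omega
      obtain ⟨v, hve⟩ := hne
      have := hv v hve
      rw [Finset.filter_true_of_mem (fun w _ => hall v w)] at this
      omega
    · intro h
      exfalso
      have := h.2.2
      unfold Q at this
      simp at this
  · push Not at hall
    obtain ⟨a0, b0, hab⟩ := hall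
    set c : Fin n → Bool := fun v => decide (rA a0 v) with hcdef
    have hct : ∀ v, c v = true ↔ rA a0 v := by intro v; simp [hcdef]
    have hcf : ∀ v, c v = false ↔ ¬ rA a0 v := by intro v; simp [hcdef]
    have hcc : ∀ a b, rA a b ↔ c a = c b := by
      intro a b
      constructor
      · intro h
        rw [Bool.eq_iff_iff, hct, hct]
        exact ⟨fun h' => hEq.trans h' h, fun h' => hEq.trans h' (hEq.symm h)⟩
      · intro h
        by_cases ha : rA a0 a
        · have : c b = true := by rw [← h, hct]; exact ha
          exact hEq.trans (hEq.symm ha) ((hct b).1 this)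
        · have hb : c b = false := by rw [← h, hcf]; exact ha
          have hb' := (hcf b).1 hb
          rcases h3 a0 a b with h' | h' | h'
          · exact absurd h' ha
          · exact h'
          · exact absurd h' hb'
    have ca0 : c a0 = true := (hct a0).2 (hEq.refl a0)
    have cb0 : c b0 = false := (hcf b0).2 hab
    set E : Fin n → Fin n → ZMod 2 := fun x y =>
      if c x = true ∧ c y = false then I4 HA a0 x b0 y
      else if c x = false ∧ c y = true then I4 HA a0 y b0 x else 0 with hE
    have hEtf : ∀ x y, c x = true → c y = false → E x y = I4 HA a0 x b0 y := by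
      intro x y hx hy
      simp [hE, hx, hy]
    refine ⟨c, E, hcc, ?_, ?_⟩
    · intro x y
      simp only [hE]
      cases hx : c x <;> cases hy : c y <;> simp
    · intro e
      have main : (e.filter (fun w => c w = true)).card = 2 →
          (e.filter (fun w => c w = false)).card = 2 → (e ∈ HA ↔ Hyp c E e) := by
        intro hT hF
        obtain ⟨a, a', haa, hTe⟩ := Finset.card_eq_two.1 hT
        obtain ⟨b, b', hbb, hFe⟩ := Finset.card_eq_two.1 hF
        have ha : c a = true := by
          have : a ∈ e.filter (fun w => c w = true) := by rw [hTe]; simp
          exact (Finset.mem_filter.1 this).2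
        have ha' : c a' = true := by
          have : a' ∈ e.filter (fun w => c w = true) := by rw [hTe]; simp
          exact (Finset.mem_filter.1 this).2
        have hb : c b = false := by
          have : b ∈ e.filter (fun w => c w = false) := by rw [hFe]; simp
          exact (Finset.mem_filter.1 this).2
        have hb' : c b' = false := by
          have : b' ∈ e.filter (fun w => c w = false) := by rw [hFe]; simp
          exact (Finset.mem_filter.1 this).2
        have he : e = {a, a', b, b'} := by
          ext w
          constructor
          · intro hw
            cases hcw : c w with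
            | true =>
              have : w ∈ e.filter (fun w => c w = true) := Finset.mem_filter.2 ⟨hw, hcw⟩
              rw [hTe] at this
              simp only [Finset.mem_insert, Finset.mem_singleton] at this ⊢
              tauto
            | false =>
              have : w ∈ e.filter (fun w => c w = false) := Finset.mem_filter.2 ⟨hw, hcw⟩
              rw [hFe] at this
              simp only [Finset.mem_insert, Finset.mem_singleton] at this ⊢
              tauto
          · intro hw
            simp only [Finset.mem_insert, Finset.mem_singleton] at hw
            rcases hw with rfl | rfl | rfl | rfl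
            · have : w ∈ e.filter (fun w => c w = true) := by rw [hTe]; simp
              exact (Finset.mem_filter.1 this).1
            · have : w ∈ e.filter (fun w => c w = true) := by rw [hTe]; simp
              exact (Finset.mem_filter.1 this).1
            · have : w ∈ e.filter (fun w => c w = false) := by rw [hFe]; simp
              exact (Finset.mem_filter.1 this).1
            · have : w ∈ e.filter (fun w => c w = false) := by rw [hFe]; simp
              exact (Finset.mem_filter.1 this).1
        rw [he, Hyp_quad haa hbb ha ha' hb hb', hEtf a b ha hb, hEtf a b' ha hb', hEtf a' b ha' hb,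
          hEtf a' b' ha' hb']
        have ra : rA a0 a := (hct a).1 ha
        have ra' : rA a0 a' := (hct a').1 ha'
        have rb : rA b0 b := (hcc b0 b).2 (by rw [cb0, hb])
        have rb' : rA b0 b' := (hcc b0 b').2 (by rw [cb0, hb'])
        have nba : ¬ rA b0 a0 := fun h => hab (hEq.symm h)
        have nab : ¬ rA a0 b := fun h => hab (hEq.trans h (hEq.symm rb))
        have k1 := cocycle hEq h4 h5 rb rb' nba ra
        have k2 := cocycle hEq h4 h5 rb rb' nba ra'
        have k3 := cocycle hEq h4 h5 ra ra' nab (hEq.trans (hEq.symm rb) rb')
        rw [I4_comm2 b0 b a0 a, I4_comm2 b b' a0 a, I4_comm2 b0 b' a0 a] at k1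
        rw [I4_comm2 b0 b a0 a', I4_comm2 b b' a0 a', I4_comm2 b0 b' a0 a'] at k2
        have key : I4 HA a0 a b0 b + I4 HA a0 a b0 b' + (I4 HA a0 a' b0 b + I4 HA a0 a' b0 b') =
            I4 HA a a' b b' := by
          linear_combination k1 + k2 - k3
        rw [key]
        unfold I4
        by_cases hm : ({a, a', b, b'} : Finset (Fin n)) ∈ HA
        · simp [hm]
        · simp [hm]
      constructor
      · intro he
        obtain ⟨hc, hv⟩ := h4 e he
        have hne : e.Nonempty := by
          rw [← Finset.card_pos]; omega
        obtain ⟨v, hve⟩ := hne
        have h2 := hv v hve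
        have hsp := card_split c e
        have hfe : e.filter (fun w => rA v w) = e.filter (fun w => c w = c v) := by
          ext w
          simp only [Finset.mem_filter, hcc]
          exact ⟨fun h => ⟨h.1, h.2.symm⟩, fun h => ⟨h.1, h.2.symm⟩⟩
        rw [hfe] at h2
        cases hcv : c v with
        | true =>
          rw [hcv] at h2
          exact (main h2 (by omega)).1 he
        | false =>
          rw [hcv] at h2
          exact (main (by omega) h2).1 he
      · intro he
        exact (main he.1 he.2.1).2 he

end Pool.Agent.H798R3.Eppa
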