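import Pool.Agent.H197R3.SF.Stmts

/-! Task APT of project H197-SF (helper798): the Wiener-Hopf equation for almost periodic symbols in the
time domain. -/

set_option autoImplicit false

namespace Pool.Agent.H798R3.SFAPt

open MeasureTheory Filter Topology Set
open Pool.Agent.H197R3.SF

/-- evaluation of one component -/
noncomputable def ev {n : ℕ} (g : ℝ) (i : Fin n) : HS n →L[ℂ] ℂ :=
  (EuclideanSpace.proj i).comp (lp.evalCLM ℂ (fun _ : ℝ => EuclideanSpace ℂ (Fin n)) 2 g)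

lemma ev_apply {n : ℕ} (g : ℝ) (i : Fin n) (u : HS n) : ev g i u = (u g) i := rfl

lemma ev_norm {n : ℕ} (g : ℝ) (i : Fin n) (u : HS n) : ‖(u g) i‖ ≤ ‖u‖ :=
  (PiLp.norm_apply_le (u g) i).trans (lp.norm_apply_le_norm (by norm_num) u g)

lemma exp_bd (ε σ t : ℝ) (h0 : 0 ≤ ε) (h : ε ≤ σ) :
    |Real.exp (ε * t) - 1| ≤ Real.exp (σ * |t|) := by
  have h1 : Real.exp (ε * t) ≤ Real.exp (σ * |t|) := by
    apply Real.exp_le_exp.mpr
    calc ε * t ≤ ε * |t| := mul_le_mul_of_nonneg_left (le_abs_self t) h0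
      _ ≤ σ * |t| := mul_le_mul_of_nonneg_right h (abs_nonneg t)
  have h2 : 1 ≤ Real.exp (σ * |t|) := Real.one_le_exp (mul_nonneg (h0.trans h) (abs_nonneg t))
  have h3 := Real.exp_pos (ε * t)
  rw [abs_le]
  constructor <;> linarith

lemma exists_eps (K : ℝ → ℝ) (hK0 : ∀ t, 0 ≤ K t) (σ : ℝ) (hσ : 0 < σ)
    (hKs : Summable (fun t => K t * Real.exp (σ * |t|))) (δ : ℝ) (hδ : 0 < δ) :
    ∃ ε : ℝ, 0 < ε ∧ ε ≤ σ ∧ Summable (fun τ : ℝ => |Real.exp (ε * τ) - 1| * K τ) ∧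
      ∑' τ : ℝ, |Real.exp (ε * τ) - 1| * K τ ≤ δ := by
  have hlim : Tendsto (fun ε : ℝ => ∑' τ : ℝ, |Real.exp (ε * τ) - 1| * K τ) (𝓝[>] 0)
      (𝓝 (∑' τ : ℝ, (0 : ℝ))) := by
    refine tendsto_tsum_of_dominated_convergence hKs (fun τ => ?_) ?_
    · have hc : Continuous fun ε : ℝ => |Real.exp (ε * τ) - 1| * K τ := by fun_prop
      have h1 : Tendsto (fun ε : ℝ => |Real.exp (ε * τ) - 1| * K τ) (𝓝 0)
          (𝓝 (|Real.exp (0 * τ) - 1| * K τ)) := hc.tendsto 0
      rw [zero_mul, Real.exp_zero, sub_self, abs_zero, zero_mul] at h1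
      exact h1.mono_left nhdsWithin_le_nhds
    · filter_upwards [Ioo_mem_nhdsGT hσ] with ε hε τ
      rw [Real.norm_eq_abs, abs_mul, abs_abs, abs_of_nonneg (hK0 τ), mul_comm]
      exact mul_le_mul_of_nonneg_left (exp_bd ε σ τ hε.1.le hε.2.le) (hK0 τ)
  rw [tsum_zero] at hlim
  obtain ⟨ε, h1, h2⟩ := ((hlim.eventually_le_const hδ).and (Ioo_mem_nhdsGT hσ)).exists
  refine ⟨ε, h2.1, h2.2.le, ?_, h1⟩
  refine Summable.of_nonneg_of_le (fun τ => mul_nonneg (abs_nonneg _) (hK0 τ)) (fun τ => ?_) hKs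
  rw [mul_comm]
  exact mul_le_mul_of_nonneg_left (exp_bd ε σ τ h2.1.le h2.2.le) (hK0 τ)

lemma A_smul {n : ℕ} {A : ℝ → Matrix (Fin n) (Fin n) ℂ → (HS n →L[ℂ] HS n)} {Q : HS n →L[ℂ] HS n}
    (hO : Ops n A Q) (τ : ℝ) (c : ℂ) (M : Matrix (Fin n) (Fin n) ℂ) :
    A τ (c • M) = c • A τ M := by
  apply ContinuousLinearMap.ext
  intro u
  apply lp.ext
  funext g
  apply PiLp.ext
  intro i
  have h1 : ((c • A τ M) u) g i = c * ((A τ M u) g i) := rfl
  rw [h1, hO.A_apply, hO.A_apply]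
  split_ifs
  · rw [Finset.mul_sum]
    refine Finset.sum_congr rfl fun j _ => ?_
    rw [Matrix.smul_apply, smul_eq_mul, mul_assoc]
  · rw [mul_zero]

theorem tAPt : Pool.Agent.H197R3.SF.TaskAPt := by
  intro hOps hA2 hBP n σ c0 C hσ hc0 hC hcoer
  obtain ⟨A, Q, hO⟩ := hOps n
  set K : ℝ → ℝ := fun t => ∑ i, ∑ j, ‖C t i j‖ with hK
  have hK0 : ∀ t, 0 ≤ K t := fun t =>
    Finset.sum_nonneg fun i _ => Finset.sum_nonneg fun j _ => norm_nonneg _
  have hKs : Summable (fun t => K t * Real.exp (σ * |t|)) := by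
    simp only [hK, Finset.sum_mul]
    exact summable_sum fun i _ => summable_sum fun j _ => hC i j
  have hone : ∀ t : ℝ, 1 ≤ Real.exp (σ * |t|) := fun t =>
    Real.one_le_exp (mul_nonneg hσ.le (abs_nonneg t))
  have hKs1 : Summable K :=
    Summable.of_nonneg_of_le hK0 (fun t => le_mul_of_one_le_right (hK0 t) (hone t)) hKs
  have hCs : ∀ i j, Summable fun t : ℝ => ‖C t i j‖ := fun i j =>
    Summable.of_nonneg_of_le (fun t => norm_nonneg _)
      (fun t => le_mul_of_one_le_right (norm_nonneg _) (hone t)) (hC i j)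
  have hAs : Summable fun τ => ‖A τ (C τ)‖ :=
    Summable.of_nonneg_of_le (fun _ => norm_nonneg _) (fun τ => hO.A_norm τ (C τ)) hKs1
  set D : ℝ → (HS n →L[ℂ] HS n) := fun τ => if τ = 0 then Q else 0 with hD
  have hDn : Summable fun τ => ‖D τ‖ := by
    have e : (fun τ => ‖D τ‖) = fun τ : ℝ => if τ = 0 then ‖Q‖ else 0 := by
      funext τ
      simp only [hD]
      split_ifs <;> simp
    rw [e]
    exact (hasSum_ite_eq (0 : ℝ) ‖Q‖).summable
  have hBs : Summable fun τ => ‖A τ (C τ) + D τ‖ :=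
    Summable.of_nonneg_of_le (fun _ => norm_nonneg _) (fun τ => norm_add_le _ _) (hAs.add hDn)
  have hunit : ∀ χ : ℝ → ℂ, Chr χ → IsUnit (∑' τ, χ τ • (A τ (C τ) + D τ)) := by
    intro χ hχ
    have h1 := hA2 n A Q hO c0 C hc0 hCs hcoer χ hχ
    have s1 : Summable fun τ => χ τ • A τ (C τ) := by
      apply Summable.of_norm
      simpa only [norm_smul, hχ.nrm, one_mul] using hAs
    have s2 : Summable fun τ => χ τ • D τ := by
      apply Summable.of_norm
      simpa only [norm_smul, hχ.nrm, one_mul] using hDn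
    have e1 : ∑' τ, χ τ • D τ = Q := by
      rw [tsum_eq_single (0 : ℝ)]
      · simp only [hD, if_true, hχ.zero, one_smul]
      · intro τ hτ
        simp only [hD, if_neg hτ, smul_zero]
    have e2 : ∑' τ, χ τ • (A τ (C τ) + D τ) = Q + ∑' τ : ℝ, χ τ • A τ (C τ) := by
      simp only [smul_add]
      rw [s1.tsum_add s2, e1, add_comm]
    rw [e2]
    exact h1
  obtain ⟨δ, hδ, hmain⟩ := hBP (HS n) (fun τ => A τ (C τ) + D τ) hBs hunit
  obtain ⟨ε, hε0, hεσ, hεs, hεδ⟩ := exists_eps K hK0 σ hσ hKs δ hδ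
  refine ⟨ε, hε0, hεσ, fun v => ?_⟩
  set A' : ℝ → (HS n →L[ℂ] HS n) :=
    fun τ => A τ (((Real.exp (ε * τ) : ℝ) : ℂ) • C τ) + D τ with hA'
  have hdiff : ∀ τ, ‖A' τ - (A τ (C τ) + D τ)‖ ≤ |Real.exp (ε * τ) - 1| * K τ := by
    intro τ
    have e1 : A' τ - (A τ (C τ) + D τ) = (((Real.exp (ε * τ) - 1 : ℝ)) : ℂ) • A τ (C τ) := by
      simp only [hA', A_smul hO]
      push_cast
      rw [sub_smul, one_smul]
      abel
    rw [e1, norm_smul, Complex.norm_real, Real.norm_eq_abs]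
    exact mul_le_mul_of_nonneg_left (hO.A_norm τ (C τ)) (abs_nonneg _)
  have hds : Summable (fun τ => ‖A' τ - (A τ (C τ) + D τ)‖) :=
    Summable.of_nonneg_of_le (fun _ => norm_nonneg _) hdiff hεs
  have hdd : ∑' τ, ‖A' τ - (A τ (C τ) + D τ)‖ ≤ δ := (hds.tsum_le_tsum hdiff hεs).trans hεδ
  set x : HS n := lp.single 2 (0 : ℝ) (WithLp.toLp 2 v) with hx
  obtain ⟨f, hfs, hf⟩ := hmain A' hds hdd x
  have hA's : Summable fun τ => ‖A' τ‖ := by
    refine Summable.of_nonneg_of_le (fun _ => norm_nonneg _) (fun τ => ?_) (hds.add hBs)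
    calc ‖A' τ‖ = ‖(A' τ - (A τ (C τ) + D τ)) + (A τ (C τ) + D τ)‖ := by rw [sub_add_cancel]
      _ ≤ _ := norm_add_le _ _
  -- summability of the terms
  have hterm : ∀ g : ℝ, Summable fun τ => A' τ (f (g - τ)) := by
    intro g
    apply Summable.of_norm
    have hb : ∀ τ, ‖f τ‖ ≤ ∑' t, ‖f t‖ := fun τ => hfs.le_tsum τ (fun _ _ => norm_nonneg _)
    refine Summable.of_nonneg_of_le (fun _ => norm_nonneg _) (fun τ => ?_)
      (hA's.mul_right (∑' t, ‖f t‖))
    exact ((A' τ).le_opNorm _).trans (mul_le_mul_of_nonneg_left (hb _) (norm_nonneg _))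
  -- the components
  have hcomp : ∀ (g : ℝ) (i : Fin n), ∑' τ, ((A' τ (f (g - τ))) g) i =
      if g = 0 then v i else 0 := by
    intro g i
    have h1 : ev g i (∑' τ, A' τ (f (g - τ))) = ∑' τ, ev g i (A' τ (f (g - τ))) :=
      (ev g i).map_tsum (hterm g)
    rw [hf g] at h1
    simp only [ev_apply] at h1
    rw [← h1]
    by_cases hg : g = 0
    · subst hg
      rw [if_pos rfl, if_pos rfl, hx, lp.single_apply_self]
    · rw [if_neg hg, if_neg hg]
      rfl
  have hA'c : ∀ (τ : ℝ) (u : HS n) (g : ℝ) (i : Fin n), ((A' τ u) g) i =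
      (if 0 ≤ g ∧ 0 ≤ g - τ then ((Real.exp (ε * τ) : ℝ) : ℂ) * ∑ j, C τ i j * (u (g - τ)) j else 0) +
        (if τ = 0 then (if g < 0 then (u g) i else 0) else 0) := by
    intro τ u g i
    have h1 : ((A' τ u) g) i = ((A τ (((Real.exp (ε * τ) : ℝ) : ℂ) • C τ) u) g) i +
        ((D τ u) g) i := rfl
    rw [h1, hO.A_apply]
    congr 1
    · split_ifs
      · rw [Finset.mul_sum]
        refine Finset.sum_congr rfl fun j _ => ?_
        rw [Matrix.smul_apply, smul_eq_mul, mul_assoc]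
      · rfl
    · simp only [hD]
      by_cases hτ : τ = 0
      · rw [if_pos hτ, if_pos hτ, hO.Q_apply]
        split_ifs
        · rfl
        · rfl
      · rw [if_neg hτ, if_neg hτ]
        rfl
  -- the solution
  have hneg : ∀ g : ℝ, g < 0 → ∀ i, (f g g) i = 0 := by
    intro g hg i
    have h1 := hcomp g i
    rw [if_neg hg.ne] at h1
    rw [← h1]
    simp only [hA'c]
    rw [tsum_eq_single (0 : ℝ)]
    · rw [if_neg (fun h => absurd h.1 (not_le.mpr hg)), if_pos rfl, if_pos hg, zero_add, sub_zero]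
    · intro τ hτ
      rw [if_neg (fun h => absurd h.1 (not_le.mpr hg)), if_neg hτ, zero_add]
  refine ⟨fun s j => ((Real.exp (-(ε * s)) : ℝ) : ℂ) * (f s s) j, fun i => ?_, fun t ht => ?_, ?_⟩
  · refine Summable.of_nonneg_of_le (fun t => by positivity) (fun t => ?_) hfs
    rcases lt_or_ge t 0 with ht | ht
    · simp only [hneg t ht i, mul_zero, norm_zero, zero_mul]
      exact norm_nonneg _
    · rw [norm_mul, Complex.norm_real, Real.norm_eq_abs, abs_of_pos (Real.exp_pos _),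
        abs_of_nonneg ht, mul_comm, ← mul_assoc, ← Real.exp_add, add_neg_cancel, Real.exp_zero,
        one_mul]
      exact ev_norm t i (f t)
  · funext j
    simp only [hneg t ht j, mul_zero, Pi.zero_apply]
  · intro g hg i
    have h1 := hcomp g i
    simp only [hA'c] at h1
    have h2 : ∀ τ : ℝ, (if 0 ≤ g ∧ 0 ≤ g - τ then ((Real.exp (ε * τ) : ℝ) : ℂ) *
        ∑ j, C τ i j * ((f (g - τ)) (g - τ)) j else 0) +
        (if τ = 0 then (if g < 0 then ((f (g - τ)) g) i else 0) else 0) =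
        ((Real.exp (ε * τ) : ℝ) : ℂ) * ∑ j, C τ i j * ((f (g - τ)) (g - τ)) j := by
      intro τ
      rw [if_neg (not_lt.mpr hg), ite_self, add_zero]
      by_cases hgt : 0 ≤ g - τ
      · rw [if_pos ⟨hg, hgt⟩]
      · rw [if_neg (fun h => hgt h.2)]
        push Not at hgt
        rw [Finset.sum_eq_zero (fun j _ => by rw [hneg _ hgt j, mul_zero]), mul_zero]
    simp only [h2] at h1
    -- substitute `s = g - τ`
    have h3 : ∑' s : ℝ, ((Real.exp (ε * (g - s)) : ℝ) : ℂ) * ∑ j, C (g - s) i j * ((f s) s) j =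
        if g = 0 then v i else 0 := by
      rw [← h1, ← (Equiv.subLeft g).tsum_eq]
      refine tsum_congr fun τ => ?_
      simp only [Equiv.subLeft_apply, sub_sub_cancel]
    have h4 : ∀ s : ℝ, ∑ j, C (g - s) i j * (((Real.exp (-(ε * s)) : ℝ) : ℂ) * (f s s) j) =
        ((Real.exp (-(ε * g)) : ℝ) : ℂ) *
          (((Real.exp (ε * (g - s)) : ℝ) : ℂ) * ∑ j, C (g - s) i j * ((f s) s) j) := by
      intro s
      rw [← mul_assoc, ← Complex.ofReal_mul, ← Real.exp_add,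
        show -(ε * g) + ε * (g - s) = -(ε * s) by ring, Finset.mul_sum]
      refine Finset.sum_congr rfl fun j _ => ?_
      ring
    simp only [h4]
    rw [tsum_mul_left, h3]
    by_cases hg0 : g = 0
    · subst hg0
      simp
    · simp [hg0]

end Pool.Agent.H798R3.SFAPt
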