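import Mathlib

set_option autoImplicit false

namespace Pool.Agent.H798R3.Vis

abbrev V := EuclideanSpace ℝ (Fin 2)

noncomputable def P : Fin 6 → V := ![!₂[2,3], !₂[5,2], !₂[3,5], !₂[0,0], !₂[10,0], !₂[0,10]]

noncomputable def x0 : V := !₂[3,3]

def facets : Finset (Finset (Fin 6)) :=
  {{0,1,2}, {0,3,4}, {1,4,5}, {2,3,5}, {0,1,4}, {1,2,5}, {0,2,3}}

def D : Finset (Finset (Fin 6)) :=
  Finset.univ.filter (fun S => ∃ F ∈ facets, S ⊆ F)

lemma mem_D {S : Finset (Fin 6)} : S ∈ D ↔ ∃ F ∈ facets, S ⊆ F := by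
  simp [D]

lemma down : ∀ S ∈ D, ∀ T : Finset (Fin 6), T ⊆ S → T ∈ D := by
  intro S hS T hT
  rw [mem_D] at *
  obtain ⟨F, hF, h⟩ := hS
  exact ⟨F, hF, hT.trans h⟩

/-- weights describing the hull -/
lemma mem_hull {S : Finset (Fin 6)} {z : V} :
    z ∈ convexHull ℝ (P '' (S : Set (Fin 6))) ↔
      ∃ w : Fin 6 → ℝ, (∀ i, 0 ≤ w i) ∧ (∀ i, i ∉ S → w i = 0) ∧ ∑ i, w i = 1 ∧
        ∑ i, w i • P i = z := by
  constructor
  · intro hz
    have : convexHull ℝ (P '' (S : Set (Fin 6))) ⊆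
      {z | ∃ w : Fin 6 → ℝ, (∀ i, 0 ≤ w i) ∧ (∀ i, i ∉ S → w i = 0) ∧ ∑ i, w i = 1 ∧
        ∑ i, w i • P i = z} := by
      apply convexHull_min
      · rintro _ ⟨i, hi, rfl⟩
        refine ⟨Pi.single i 1, ?_, ?_, ?_, ?_⟩
        · intro j
          by_cases h : j = i
          · subst h; simp
          · simp [Pi.single_apply, h]
        · intro j hj
          have : j ≠ i := by
            rintro rfl
            exact hj (by simpa using hi)
          simp [Pi.single_apply, this]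
        · simp
        · simp [Pi.single_apply]
      · rintro a ⟨w, hw1, hw2, hw3, rfl⟩ b ⟨u, hu1, hu2, hu3, rfl⟩ s t hs ht hst
        refine ⟨fun i => s * w i + t * u i, ?_, ?_, ?_, ?_⟩
        · intro i
          have := mul_nonneg hs (hw1 i)
          have := mul_nonneg ht (hu1 i)
          linarith
        · intro i hi
          simp [hw2 i hi, hu2 i hi]
        · simp only [Finset.sum_add_distrib, ← Finset.mul_sum, hw3, hu3]
          linarith
        · simp only [add_smul, Finset.sum_add_distrib, mul_smul, Finset.smul_sum]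
    exact this hz
  · rintro ⟨w, hw1, hw2, hw3, rfl⟩
    have h1 : ∑ i, w i • P i = ∑ i ∈ S, w i • P i := by
      symm
      apply Finset.sum_subset (Finset.subset_univ S)
      intro i _ hi
      simp [hw2 i hi]
    have h2 : ∑ i ∈ S, w i = 1 := by
      rw [← hw3]
      apply Finset.sum_subset (Finset.subset_univ S)
      intro i _ hi
      simp [hw2 i hi]
    rw [h1]
    apply (convex_convexHull ℝ _).sum_mem (fun i _ => hw1 i) h2
    intro i hi
    apply subset_convexHull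
    exact ⟨i, by simpa using hi, rfl⟩

lemma coords (w : Fin 6 → ℝ) :
    (∑ i, w i • P i) 0 = 2 * w 0 + 5 * w 1 + 3 * w 2 + 10 * w 4 ∧
    (∑ i, w i • P i) 1 = 3 * w 0 + 2 * w 1 + 5 * w 2 + 10 * w 5 := by
  constructor
  · simp [Fin.sum_univ_six, P]
    ring
  · simp [Fin.sum_univ_six, P]
    ring

lemma ext2 {a b : V} (h0 : a 0 = b 0) (h1 : a 1 = b 1) : a = b := by
  ext i
  fin_cases i
  · exact h0
  · exact h1

lemma mem_hull' {S : Finset (Fin 6)} {z : V} :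
    z ∈ convexHull ℝ (P '' (S : Set (Fin 6))) ↔
      ∃ w : Fin 6 → ℝ, (∀ i, 0 ≤ w i) ∧ (∀ i, i ∉ S → w i = 0) ∧
        w 0 + w 1 + w 2 + w 3 + w 4 + w 5 = 1 ∧
        2 * w 0 + 5 * w 1 + 3 * w 2 + 10 * w 4 = z 0 ∧
        3 * w 0 + 2 * w 1 + 5 * w 2 + 10 * w 5 = z 1 := by
  rw [mem_hull]
  constructor
  · rintro ⟨w, h1, h2, h3, h4⟩
    refine ⟨w, h1, h2, ?_, ?_, ?_⟩
    · rw [← h3, Fin.sum_univ_six]
    · rw [← h4, (coords w).1]
    · rw [← h4, (coords w).2]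
  · rintro ⟨w, h1, h2, h3, h4, h5⟩
    refine ⟨w, h1, h2, ?_, ?_⟩
    · rw [← h3, Fin.sum_univ_six]
    · apply ext2
      · rw [← h4, (coords w).1]
      · rw [← h5, (coords w).2]

set_option maxHeartbeats 4000000 in
/-- a linear functional uniqueness lemma for each pair of facets -/
lemma unique_weights (F G : Finset (Fin 6)) (hF : F ∈ facets) (hG : G ∈ facets)
    (w u : Fin 6 → ℝ) (hw : ∀ i, 0 ≤ w i) (hu : ∀ i, 0 ≤ u i)
    (hwF : ∀ i, i ∉ F → w i = 0) (huG : ∀ i, i ∉ G → u i = 0)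
    (h1 : w 0 + w 1 + w 2 + w 3 + w 4 + w 5 = u 0 + u 1 + u 2 + u 3 + u 4 + u 5)
    (h2 : 2 * w 0 + 5 * w 1 + 3 * w 2 + 10 * w 4 = 2 * u 0 + 5 * u 1 + 3 * u 2 + 10 * u 4)
    (h3 : 3 * w 0 + 2 * w 1 + 5 * w 2 + 10 * w 5 = 3 * u 0 + 2 * u 1 + 5 * u 2 + 10 * u 5) :
    ∀ i, w i = u i := by
  have a0 := hw 0
  have a1 := hw 1
  have a2 := hw 2
  have a3 := hw 3
  have a4 := hw 4
  have a5 := hw 5
  have b0 := hu 0
  have b1 := hu 1
  have b2 := hu 2
  have b3 := hu 3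
  have b4 := hu 4
  have b5 := hu 5
  simp only [facets, Finset.mem_insert, Finset.mem_singleton] at hF hG
  have key : w 0 = u 0 ∧ w 1 = u 1 ∧ w 2 = u 2 ∧ w 3 = u 3 ∧ w 4 = u 4 ∧ w 5 = u 5 := by
    rcases hF with rfl | rfl | rfl | rfl | rfl | rfl | rfl <;>
    rcases hG with rfl | rfl | rfl | rfl | rfl | rfl | rfl <;>
    simp only [Finset.mem_insert, Finset.mem_singleton, Fin.forall_fin_succ, Fin.isValue] at hwF huG <;>
    simp at hwF huG <;>
    obtain ⟨e1, e2, e3⟩ := hwF <;>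
    obtain ⟨f1, f2, f3⟩ := huG <;>
    refine ⟨?_, ?_, ?_, ?_, ?_, ?_⟩ <;> linarith
  obtain ⟨k0, k1, k2, k3, k4, k5⟩ := key
  intro i
  fin_cases i <;> assumption

end Pool.Agent.H798R3.Vis
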