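import Pool.Agent.H798R3.Vis

set_option autoImplicit false

namespace Pool.Agent.H798R3.Vis

lemma hull_mono {S T : Finset (Fin 6)} (h : S ⊆ T) :
    convexHull ℝ (P '' (S : Set (Fin 6))) ⊆ convexHull ℝ (P '' (T : Set (Fin 6))) :=
  convexHull_mono (Set.image_mono (by exact_mod_cast h))

lemma inter_prop : ∀ S ∈ D, ∀ T ∈ D,
    convexHull ℝ (P '' (S : Set (Fin 6))) ∩ convexHull ℝ (P '' (T : Set (Fin 6))) =
      convexHull ℝ (P '' ((S ∩ T : Finset (Fin 6)) : Set (Fin 6))) := by
  intro S hS T hT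
  apply Set.Subset.antisymm
  · rintro z ⟨hzS, hzT⟩
    rw [mem_hull'] at hzS hzT
    obtain ⟨w, w1, w2, w3, w4, w5⟩ := hzS
    obtain ⟨u, u1, u2, u3, u4, u5⟩ := hzT
    obtain ⟨F, hF, hSF⟩ := mem_D.1 hS
    obtain ⟨G, hG, hTG⟩ := mem_D.1 hT
    have key := unique_weights F G hF hG w u w1 u1
      (fun i hi => w2 i (fun h => hi (hSF h))) (fun i hi => u2 i (fun h => hi (hTG h)))
      (by rw [w3, u3]) (by rw [w4, u4]) (by rw [w5, u5])
    rw [mem_hull']
    refine ⟨w, w1, ?_, w3, w4, w5⟩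
    intro i hi
    by_cases h : i ∈ S
    · have : i ∉ T := fun h' => hi (Finset.mem_inter.2 ⟨h, h'⟩)
      rw [key i, u2 i this]
    · exact w2 i h
  · apply Set.subset_inter
    · exact hull_mono Finset.inter_subset_left
    · exact hull_mono Finset.inter_subset_right

lemma indep_facet (F : Finset (Fin 6)) (hF : F ∈ facets)
    (w : Fin 6 → ℝ) (hwF : ∀ i, i ∉ F → w i = 0)
    (h1 : w 0 + w 1 + w 2 + w 3 + w 4 + w 5 = 0)
    (h2 : 2 * w 0 + 5 * w 1 + 3 * w 2 + 10 * w 4 = 0)
    (h3 : 3 * w 0 + 2 * w 1 + 5 * w 2 + 10 * w 5 = 0) :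
    ∀ i, w i = 0 := by
  simp only [facets, Finset.mem_insert, Finset.mem_singleton] at hF
  have key : w 0 = 0 ∧ w 1 = 0 ∧ w 2 = 0 ∧ w 3 = 0 ∧ w 4 = 0 ∧ w 5 = 0 := by
    rcases hF with rfl | rfl | rfl | rfl | rfl | rfl | rfl <;>
    simp only [Finset.mem_insert, Finset.mem_singleton, Fin.forall_fin_succ, Fin.isValue] at hwF <;>
    simp at hwF <;>
    obtain ⟨e1, e2, e3⟩ := hwF <;>
    refine ⟨?_, ?_, ?_, ?_, ?_, ?_⟩ <;> linarith
  obtain ⟨k0, k1, k2, k3, k4, k5⟩ := key
  intro i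
  fin_cases i <;> assumption

lemma aff_indep : ∀ S ∈ D, AffineIndependent ℝ (fun i : (S : Set (Fin 6)) => P i) := by
  intro S hS
  obtain ⟨F, hF, hSF⟩ := mem_D.1 hS
  rw [affineIndependent_iff]
  intro s w hw0 hw1 e he
  classical
  set W : Fin 6 → ℝ := fun j => ∑ i ∈ s, if (i : Fin 6) = j then w i else 0 with hW
  have hsum : ∑ j, W j = 0 := by
    rw [hW]
    rw [Finset.sum_comm]
    simpa using hw0
  have hsum2 : ∑ j, W j • P j = 0 := by
    rw [← hw1, hW]
    simp only [Finset.sum_smul]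
    rw [Finset.sum_comm]
    apply Finset.sum_congr rfl
    intro i _
    simp
  have hWF : ∀ j, j ∉ F → W j = 0 := by
    intro j hj
    rw [hW]
    apply Finset.sum_eq_zero
    intro i _
    have : (i : Fin 6) ≠ j := by
      rintro rfl
      exact hj (hSF (by exact_mod_cast i.2))
    simp [this]
  have hc := coords W
  rw [hsum2] at hc
  have hz := indep_facet F hF W hWF (by rw [← hsum, Fin.sum_univ_six])
    (by rw [← hc.1]; simp) (by rw [← hc.2]; simp)
  have h3 := hz e
  rw [hW] at h3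
  simp only at h3
  rw [Finset.sum_eq_single e] at h3
  · simpa using h3
  · intro b _ hb
    have : (b : Fin 6) ≠ e := fun h => hb (Subtype.ext h)
    simp [this]
  · intro h
    exact absurd he h

/-- membership in the hull of a facet from explicit weights -/
lemma mem_of_weights (S : Finset (Fin 6)) (z : V) (a0 a1 a2 a3 a4 a5 : ℝ)
    (h0 : 0 ≤ a0) (h1 : 0 ≤ a1) (h2 : 0 ≤ a2) (h3 : 0 ≤ a3) (h4 : 0 ≤ a4) (h5 : 0 ≤ a5)
    (z0 : (0 : Fin 6) ∉ S → a0 = 0) (z1 : (1 : Fin 6) ∉ S → a1 = 0)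
    (z2 : (2 : Fin 6) ∉ S → a2 = 0) (z3 : (3 : Fin 6) ∉ S → a3 = 0)
    (z4 : (4 : Fin 6) ∉ S → a4 = 0) (z5 : (5 : Fin 6) ∉ S → a5 = 0)
    (hs : a0 + a1 + a2 + a3 + a4 + a5 = 1)
    (hx : 2 * a0 + 5 * a1 + 3 * a2 + 10 * a4 = z 0)
    (hy : 3 * a0 + 2 * a1 + 5 * a2 + 10 * a5 = z 1) :
    z ∈ convexHull ℝ (P '' (S : Set (Fin 6))) := by
  rw [mem_hull']
  refine ⟨![a0, a1, a2, a3, a4, a5], ?_, ?_, ?_, ?_, ?_⟩
  · intro i
    fin_cases i <;> simpa
  · intro i hi
    fin_cases i
    · exact z0 hi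
    · exact z1 hi
    · exact z2 hi
    · exact z3 hi
    · exact z4 hi
    · exact z5 hi
  · simpa using hs
  · simpa using hx
  · simpa using hy

lemma cover (z : V) (h0 : 0 ≤ z 0) (h1 : 0 ≤ z 1) (h2 : z 0 + z 1 ≤ 10) :
    ∃ F ∈ facets, z ∈ convexHull ℝ (P '' (F : Set (Fin 6))) := by
  set u := z 0 with hu
  set v := z 1 with hv
  have F0 : 0 ≤ u + 3 * v - 11 → 0 ≤ 19 - 3 * u - 2 * v → 0 ≤ 2 * u - v - 1 →
      ∃ F ∈ facets, z ∈ convexHull ℝ (P '' (F : Set (Fin 6))) := by
    intro a b c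
    refine ⟨{0,1,2}, by decide, ?_⟩
    apply mem_of_weights _ z ((19 - 3 * u - 2 * v) / 7) ((2 * u - v - 1) / 7)
      ((u + 3 * v - 11) / 7) 0 0 0
      (by linarith) (by linarith) (by linarith) le_rfl le_rfl le_rfl
      (fun h => absurd (by decide) h) (fun h => absurd (by decide) h)
      (fun h => absurd (by decide) h) (fun _ => rfl) (fun _ => rfl) (fun _ => rfl)
      (by ring) (by rw [← hu]; ring) (by rw [← hv]; ring)
  have F1 : 3 * u + 8 * v - 30 ≤ 0 → 2 * v - 3 * u ≤ 0 →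
      ∃ F ∈ facets, z ∈ convexHull ℝ (P '' (F : Set (Fin 6))) := by
    intro a b
    refine ⟨{0,3,4}, by decide, ?_⟩
    apply mem_of_weights _ z (v / 3) 0 0 (1 - v / 3 - (3 * u - 2 * v) / 30) ((3 * u - 2 * v) / 30) 0
      (by linarith) le_rfl le_rfl (by linarith) (by linarith) le_rfl
      (fun h => absurd (by decide) h) (fun _ => rfl)
      (fun _ => rfl) (fun h => absurd (by decide) h) (fun h => absurd (by decide) h) (fun _ => rfl)
      (by ring) (by rw [← hu]; ring) (by rw [← hv]; ring)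
  -- {1,4,5}: points (5,2), (10,0), (0,10)
  have F2 : 50 - 8 * u - 5 * v ≤ 0 → 20 - 2 * u - 5 * v ≤ 0 →
      ∃ F ∈ facets, z ∈ convexHull ℝ (P '' (F : Set (Fin 6))) := by
    intro a b
    refine ⟨{1,4,5}, by decide, ?_⟩
    apply mem_of_weights _ z 0 ((10 - u - v) / 3) 0 0 ((8 * u + 5 * v - 50) / 30)
      ((2 * u + 5 * v - 20) / 30)
      le_rfl (by linarith) le_rfl le_rfl (by linarith) (by linarith)
      (fun _ => rfl) (fun h => absurd (by decide) h)
      (fun _ => rfl) (fun _ => rfl) (fun h => absurd (by decide) h) (fun h => absurd (by decide) h)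
      (by ring) (by rw [← hu]; ring) (by rw [← hv]; ring)
  -- {2,3,5}: points (3,5), (0,0), (0,10)
  have F3 : 5 * u - 3 * v ≤ 0 → 5 * u + 3 * v - 30 ≤ 0 →
      ∃ F ∈ facets, z ∈ convexHull ℝ (P '' (F : Set (Fin 6))) := by
    intro a b
    refine ⟨{2,3,5}, by decide, ?_⟩
    apply mem_of_weights _ z 0 0 (u / 3) (1 - u / 3 - (3 * v - 5 * u) / 30) 0
      ((3 * v - 5 * u) / 30)
      le_rfl le_rfl (by linarith) (by linarith) le_rfl (by linarith)
      (fun _ => rfl) (fun _ => rfl)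
      (fun h => absurd (by decide) h) (fun h => absurd (by decide) h) (fun _ => rfl)
      (fun h => absurd (by decide) h)
      (by ring) (by rw [← hu]; ring) (by rw [← hv]; ring)
  -- {0,1,4}: points (2,3), (5,2), (10,0)
  have F4 : u + 3 * v - 11 ≤ 0 → 0 ≤ 3 * u + 8 * v - 30 → 0 ≤ 20 - 2 * u - 5 * v →
      ∃ F ∈ facets, z ∈ convexHull ℝ (P '' (F : Set (Fin 6))) := by
    intro a b c
    refine ⟨{0,1,4}, by decide, ?_⟩
    apply mem_of_weights _ z (20 - 2 * u - 5 * v) (3 * u + 8 * v - 30) 0 0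
      (11 - u - 3 * v) 0
      (by linarith) (by linarith) le_rfl le_rfl (by linarith) le_rfl
      (fun h => absurd (by decide) h) (fun h => absurd (by decide) h)
      (fun _ => rfl) (fun _ => rfl) (fun h => absurd (by decide) h) (fun _ => rfl)
      (by ring) (by rw [← hu]; ring) (by rw [← hv]; ring)
  -- {1,2,5}: points (5,2), (3,5), (0,10)
  have F5 : 19 - 3 * u - 2 * v ≤ 0 → 0 ≤ 50 - 8 * u - 5 * v → 0 ≤ 5 * u + 3 * v - 30 →
      ∃ F ∈ facets, z ∈ convexHull ℝ (P '' (F : Set (Fin 6))) := by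
    intro a b c
    refine ⟨{1,2,5}, by decide, ?_⟩
    apply mem_of_weights _ z 0 (5 * u + 3 * v - 30) (50 - 8 * u - 5 * v) 0 0
      (3 * u + 2 * v - 19)
      le_rfl (by linarith) (by linarith) le_rfl le_rfl (by linarith)
      (fun _ => rfl) (fun h => absurd (by decide) h)
      (fun h => absurd (by decide) h) (fun _ => rfl) (fun _ => rfl) (fun h => absurd (by decide) h)
      (by ring) (by rw [← hu]; ring) (by rw [← hv]; ring)
  -- {0,2,3}: points (2,3), (3,5), (0,0)
  have F6 : 2 * u - v - 1 ≤ 0 → 0 ≤ 5 * u - 3 * v → 0 ≤ 2 * v - 3 * u →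
      ∃ F ∈ facets, z ∈ convexHull ℝ (P '' (F : Set (Fin 6))) := by
    intro a b c
    refine ⟨{0,2,3}, by decide, ?_⟩
    apply mem_of_weights _ z (5 * u - 3 * v) 0 (2 * v - 3 * u) (1 + v - 2 * u) 0 0
      (by linarith) le_rfl (by linarith) (by linarith) le_rfl le_rfl
      (fun h => absurd (by decide) h) (fun _ => rfl)
      (fun h => absurd (by decide) h) (fun h => absurd (by decide) h) (fun _ => rfl) (fun _ => rfl)
      (by ring) (by rw [← hu]; ring) (by rw [← hv]; ring)
  rcases le_total (3 * u + 8 * v - 30) 0 with hE15 | hE15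
  · rcases le_total (2 * v - 3 * u) 0 with hE41 | hE41
    · exact F1 hE15 hE41
    · rcases le_total 0 (5 * u - 3 * v) with hE34 | hE34
      · exact F6 (by linarith) hE34 hE41
      · exact F3 hE34 (by linarith)
  · rcases le_total (50 - 8 * u - 5 * v) 0 with hE26 | hE26
    · rcases le_total (20 - 2 * u - 5 * v) 0 with hE52 | hE52
      · exact F2 hE26 hE52
      · exact F4 (by linarith) hE15 hE52
    · rcases le_total (5 * u - 3 * v) 0 with hE34 | hE34
      · rcases le_total (5 * u + 3 * v - 30) 0 with hE63 | hE63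
        · exact F3 hE34 hE63
        · exact F5 (by linarith) hE26 hE63
      · rcases le_total (u + 3 * v - 11) 0 with hL12 | hL12
        · exact F4 hL12 hE15 (by linarith)
        · rcases le_total (19 - 3 * u - 2 * v) 0 with hL23 | hL23
          · exact F5 hL23 hE26 (by linarith)
          · rcases le_total (2 * u - v - 1) 0 with hL31 | hL31
            · exact F6 hL31 hE34 (by linarith)
            · exact F0 hL12 hL23 hL31

lemma union_eq : (⋃ S ∈ D, convexHull ℝ (P '' (S : Set (Fin 6)))) =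
    {z : V | 0 ≤ z 0 ∧ 0 ≤ z 1 ∧ z 0 + z 1 ≤ 10} := by
  apply Set.Subset.antisymm
  · intro z hz
    simp only [Set.mem_iUnion] at hz
    obtain ⟨S, hS, hz⟩ := hz
    rw [mem_hull'] at hz
    obtain ⟨w, w1, w2, w3, w4, w5⟩ := hz
    have a0 := w1 0
    have a1 := w1 1
    have a2 := w1 2
    have a3 := w1 3
    have a4 := w1 4
    have a5 := w1 5
    refine ⟨?_, ?_, ?_⟩
    · rw [← w4]; linarith
    · rw [← w5]; linarith
    · rw [← w4, ← w5]; linarith
  · rintro z ⟨h0, h1, h2⟩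
    obtain ⟨F, hF, h⟩ := cover z h0 h1 h2
    simp only [Set.mem_iUnion]
    exact ⟨F, mem_D.2 ⟨F, hF, subset_rfl⟩, h⟩

lemma convex_union : Convex ℝ (⋃ S ∈ D, convexHull ℝ (P '' (S : Set (Fin 6)))) := by
  rw [union_eq]
  rintro a ⟨a0, a1, a2⟩ b ⟨b0, b1, b2⟩ s t hs ht hst
  have e0 : (s • a + t • b) 0 = s * a 0 + t * b 0 := by simp
  have e1 : (s • a + t • b) 1 = s * a 1 + t * b 1 := by simp
  refine ⟨?_, ?_, ?_⟩
  · rw [e0]; positivity
  · rw [e1]; positivity
  · rw [e0, e1]
    have h1 : s * (a 0 + a 1) ≤ s * 10 := mul_le_mul_of_nonneg_left a2 hs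
    have h2 : t * (b 0 + b 1) ≤ t * 10 := mul_le_mul_of_nonneg_left b2 ht
    nlinarith

lemma x0_mem : x0 ∈ (⋃ S ∈ D, convexHull ℝ (P '' (S : Set (Fin 6)))) := by
  rw [union_eq]
  refine ⟨?_, ?_, ?_⟩ <;> simp [x0]
  norm_num

/-- the signed area form -/
def cr (a b z : V) : ℝ := (b 0 - a 0) * (z 1 - a 1) - (b 1 - a 1) * (z 0 - a 0)

lemma mem_line {a b z : V} (hab : a ≠ b) :
    z ∈ affineSpan ℝ ({a, b} : Set V) ↔ cr a b z = 0 := by
  rw [mem_affineSpan_pair_iff_exists_lineMap_eq]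
  constructor
  · rintro ⟨r, rfl⟩
    simp [cr, AffineMap.lineMap_apply]
    ring
  · intro h
    unfold cr at h
    by_cases h0 : b 0 - a 0 = 0
    · have h1 : b 1 - a 1 ≠ 0 := by
        intro h1
        apply hab
        apply ext2 <;> linarith
      rw [h0] at h
      have hz : z 0 - a 0 = 0 := by
        have : (b 1 - a 1) * (z 0 - a 0) = 0 := by linarith
        rcases mul_eq_zero.1 this with h | h
        · exact absurd h h1
        · exact h
      refine ⟨(z 1 - a 1) / (b 1 - a 1), ?_⟩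
      apply ext2
      · simp [AffineMap.lineMap_apply]
        rw [h0]
        linarith
      · simp [AffineMap.lineMap_apply]
        field_simp
        ring
    · refine ⟨(z 0 - a 0) / (b 0 - a 0), ?_⟩
      apply ext2
      · simp [AffineMap.lineMap_apply]
        field_simp
        ring
      · simp [AffineMap.lineMap_apply]
        field_simp
        linarith

lemma cr_lineMap (a b x y : V) (r : ℝ) :
    cr a b (AffineMap.lineMap x y r) = (1 - r) * cr a b x + r * cr a b y := by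
  simp [cr, AffineMap.lineMap_apply]
  ring

lemma sOpp_iff {a b x y : V} (hab : a ≠ b) :
    (affineSpan ℝ ({a, b} : Set V)).SOppSide x y ↔ cr a b x * cr a b y < 0 := by
  unfold AffineSubspace.SOppSide
  rw [AffineSubspace.wOppSide_iff_exists_wbtw, mem_line hab, mem_line hab]
  constructor
  · rintro ⟨⟨p, hp, ⟨r, ⟨hr0, hr1⟩, hr⟩⟩, hx, hy⟩
    rw [mem_line hab] at hp
    rw [← hr, cr_lineMap] at hp
    by_contra hcon
    push Not at hcon
    have hpos : 0 < cr a b x * cr a b y := lt_of_le_of_ne hcon (Ne.symm (mul_ne_zero hx hy))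
    rcases mul_pos_iff.1 hpos with ⟨h1, h2⟩ | ⟨h1, h2⟩
    · rcases eq_or_lt_of_le hr0 with h | h
      · subst h
        simp at hp
        exact hx hp
      · have : 0 < r * cr a b y := mul_pos h h2
        have : 0 ≤ (1 - r) * cr a b x := mul_nonneg (by linarith) h1.le
        linarith
    · rcases eq_or_lt_of_le hr0 with h | h
      · subst h
        simp at hp
        exact hx hp
      · have : r * cr a b y < 0 := mul_neg_of_pos_of_neg h h2
        have : (1 - r) * cr a b x ≤ 0 := mul_nonpos_of_nonneg_of_nonpos (by linarith) h1.le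
        linarith
  · intro h
    have hx : cr a b x ≠ 0 := by
      rintro h0
      rw [h0] at h
      simp at h
    have hy : cr a b y ≠ 0 := by
      rintro h0
      rw [h0] at h
      simp at h
    have hd : cr a b x - cr a b y ≠ 0 := by
      intro h0
      have : cr a b x = cr a b y := by linarith
      rw [this] at h
      nlinarith [mul_self_nonneg (cr a b y)]
    refine ⟨⟨AffineMap.lineMap x y (cr a b x / (cr a b x - cr a b y)), ?_, ?_⟩, hx, hy⟩
    · rw [mem_line hab, cr_lineMap]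
      field_simp
      ring
    · refine ⟨cr a b x / (cr a b x - cr a b y), ⟨?_, ?_⟩, rfl⟩
      · rcases mul_neg_iff.1 h with ⟨h1, h2⟩ | ⟨h1, h2⟩
        · apply div_nonneg h1.le
          linarith
        · apply div_nonneg_of_nonpos h1.le
          linarith
      · rcases mul_neg_iff.1 h with ⟨h1, h2⟩ | ⟨h1, h2⟩
        · rw [div_le_one (by linarith)]
          linarith
        · rw [div_le_one_of_neg (by linarith)]
          linarith

end Pool.Agent.H798R3.Vis
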