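import Pool.Agent.H798R3.Vis2

set_option autoImplicit false

namespace Pool.Agent.H798R3.Vis

open MvPolynomial

abbrev R := MvPolynomial (Fin 6) ℚ

noncomputable def th : Fin 3 → R := ![X 0 + X 4 + X 5, X 1 + X 3 + X 5, X 2 + X 3 + X 4]

noncomputable def Jd : Ideal R :=
  Ideal.span ((fun S : Finset (Fin 6) => ∏ i ∈ S, (MvPolynomial.X i : R)) ''
              {S : Finset (Fin 6) | S ∉ D}) ⊔ Ideal.span (Set.range th)

lemma th_mem (i : Fin 3) : th i ∈ Jd :=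
  Ideal.mem_sup_right (Ideal.subset_span ⟨i, rfl⟩)

lemma t0 : (X 0 + X 4 + X 5 : R) ∈ Jd := th_mem 0
lemma t1 : (X 1 + X 3 + X 5 : R) ∈ Jd := th_mem 1
lemma t2 : (X 2 + X 3 + X 4 : R) ∈ Jd := th_mem 2

lemma nonface {S : Finset (Fin 6)} (h : S ∉ D) : (∏ i ∈ S, (X i : R)) ∈ Jd :=
  Ideal.mem_sup_left (Ideal.subset_span ⟨S, h, rfl⟩)

lemma n05 : (X 0 * X 5 : R) ∈ Jd := by
  have h := nonface (S := {0, 5}) (by decide)
  rwa [Finset.prod_pair (by decide)] at h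
lemma n13 : (X 1 * X 3 : R) ∈ Jd := by
  have h := nonface (S := {1, 3}) (by decide)
  rwa [Finset.prod_pair (by decide)] at h
lemma n24 : (X 2 * X 4 : R) ∈ Jd := by
  have h := nonface (S := {2, 4}) (by decide)
  rwa [Finset.prod_pair (by decide)] at h
lemma n345 : (X 3 * X 4 * X 5 : R) ∈ Jd := by
  have h := nonface (S := {3, 4, 5}) (by decide)
  rw [Finset.prod_insert (by decide), Finset.prod_pair (by decide)] at h
  rwa [mul_assoc]

/-- the linear dependence -/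
lemma dep : (X 0 * X 4 + X 1 * X 5 + X 2 * X 3 : R) ∈ Jd := by
  have e : (X 0 * X 4 + X 1 * X 5 + X 2 * X 3 : R) =
      X 4 * (X 0 + X 4 + X 5) + X 5 * (X 1 + X 3 + X 5) + X 3 * (X 2 + X 3 + X 4)
      - X 3 * (X 1 + X 3 + X 5) - X 4 * (X 2 + X 3 + X 4) - X 5 * (X 0 + X 4 + X 5)
      + (X 1 * X 3 + X 2 * X 4 + X 0 * X 5) := by ring
  rw [e]
  refine Ideal.add_mem _ (Ideal.sub_mem _ (Ideal.sub_mem _ (Ideal.sub_mem _
    (Ideal.add_mem _ (Ideal.add_mem _ ?_ ?_) ?_) ?_) ?_) ?_)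
    (Ideal.add_mem _ (Ideal.add_mem _ n13 n24) n05)
  · exact Ideal.mul_mem_left _ _ t0
  · exact Ideal.mul_mem_left _ _ t1
  · exact Ideal.mul_mem_left _ _ t2
  · exact Ideal.mul_mem_left _ _ t1
  · exact Ideal.mul_mem_left _ _ t2
  · exact Ideal.mul_mem_left _ _ t0

/-- squares: `x3^2 = - x3 x5`, `x4^2 = -x3 x4`, `x5^2 = - x4 x5`. -/
lemma s3 : (X 3 ^ 2 + X 3 * X 5 : R) ∈ Jd := by
  have e : (X 3 ^ 2 + X 3 * X 5 : R) = X 3 * (X 1 + X 3 + X 5) - X 1 * X 3 := by ring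
  rw [e]
  exact Ideal.sub_mem _ (Ideal.mul_mem_left _ _ t1) n13
lemma s4 : (X 4 ^ 2 + X 3 * X 4 : R) ∈ Jd := by
  have e : (X 4 ^ 2 + X 3 * X 4 : R) = X 4 * (X 2 + X 3 + X 4) - X 2 * X 4 := by ring
  rw [e]
  exact Ideal.sub_mem _ (Ideal.mul_mem_left _ _ t2) n24
lemma s5 : (X 5 ^ 2 + X 4 * X 5 : R) ∈ Jd := by
  have e : (X 5 ^ 2 + X 4 * X 5 : R) = X 5 * (X 0 + X 4 + X 5) - X 0 * X 5 := by ring
  rw [e]
  exact Ideal.sub_mem _ (Ideal.mul_mem_left _ _ t0) n05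

lemma c3 : (X 3 ^ 3 : R) ∈ Jd := by
  have e : (X 3 ^ 3 : R) = (X 3 - X 5) * (X 3 ^ 2 + X 3 * X 5) + X 3 * (X 5 ^ 2 + X 4 * X 5)
      - X 3 * X 4 * X 5 := by ring
  rw [e]
  exact Ideal.sub_mem _ (Ideal.add_mem _ (Ideal.mul_mem_left _ _ s3) (Ideal.mul_mem_left _ _ s5)) n345
lemma c4 : (X 4 ^ 3 : R) ∈ Jd := by
  have e : (X 4 ^ 3 : R) = (X 4 - X 3) * (X 4 ^ 2 + X 3 * X 4) + X 4 * (X 3 ^ 2 + X 3 * X 5)
      - X 3 * X 4 * X 5 := by ring
  rw [e]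
  exact Ideal.sub_mem _ (Ideal.add_mem _ (Ideal.mul_mem_left _ _ s4) (Ideal.mul_mem_left _ _ s3)) n345
lemma c5 : (X 5 ^ 3 : R) ∈ Jd := by
  have e : (X 5 ^ 3 : R) = (X 5 - X 4) * (X 5 ^ 2 + X 4 * X 5) + X 5 * (X 4 ^ 2 + X 3 * X 4)
      - X 3 * X 4 * X 5 := by ring
  rw [e]
  exact Ideal.sub_mem _ (Ideal.add_mem _ (Ideal.mul_mem_left _ _ s5) (Ideal.mul_mem_left _ _ s4)) n345

lemma int_of_cube {a : R ⧸ Jd} (h : a ^ 3 = 0) : IsIntegral ℚ a := by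
  apply IsIntegral.of_pow (n := 3) (by norm_num)
  rw [h]
  exact isIntegral_zero

lemma i3 : IsIntegral ℚ (Ideal.Quotient.mk Jd (X 3)) :=
  int_of_cube (by rw [← map_pow]; exact Ideal.Quotient.eq_zero_iff_mem.2 c3)
lemma i4 : IsIntegral ℚ (Ideal.Quotient.mk Jd (X 4)) :=
  int_of_cube (by rw [← map_pow]; exact Ideal.Quotient.eq_zero_iff_mem.2 c4)
lemma i5 : IsIntegral ℚ (Ideal.Quotient.mk Jd (X 5)) :=
  int_of_cube (by rw [← map_pow]; exact Ideal.Quotient.eq_zero_iff_mem.2 c5)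

lemma i0 : IsIntegral ℚ (Ideal.Quotient.mk Jd (X 0)) := by
  have h : Ideal.Quotient.mk Jd (X 0) = -(Ideal.Quotient.mk Jd (X 4) + Ideal.Quotient.mk Jd (X 5)) := by
    have := Ideal.Quotient.eq_zero_iff_mem.2 t0
    rw [map_add, map_add] at this
    linear_combination this
  rw [h]
  exact (i4.add i5).neg
lemma i1 : IsIntegral ℚ (Ideal.Quotient.mk Jd (X 1)) := by
  have h : Ideal.Quotient.mk Jd (X 1) = -(Ideal.Quotient.mk Jd (X 3) + Ideal.Quotient.mk Jd (X 5)) := by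
    have := Ideal.Quotient.eq_zero_iff_mem.2 t1
    rw [map_add, map_add] at this
    linear_combination this
  rw [h]
  exact (i3.add i5).neg
lemma i2 : IsIntegral ℚ (Ideal.Quotient.mk Jd (X 2)) := by
  have h : Ideal.Quotient.mk Jd (X 2) = -(Ideal.Quotient.mk Jd (X 3) + Ideal.Quotient.mk Jd (X 4)) := by
    have := Ideal.Quotient.eq_zero_iff_mem.2 t2
    rw [map_add, map_add] at this
    linear_combination this
  rw [h]
  exact (i3.add i4).neg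

lemma iX : ∀ i : Fin 6, IsIntegral ℚ (Ideal.Quotient.mk Jd (X i)) := by
  intro i
  fin_cases i
  · exact i0
  · exact i1
  · exact i2
  · exact i3
  · exact i4
  · exact i5

lemma fin_quot : Module.Finite ℚ (R ⧸ Jd) := by
  have : Algebra.IsIntegral ℚ (R ⧸ Jd) := by
    constructor
    intro a
    obtain ⟨q, rfl⟩ := Ideal.Quotient.mk_surjective a
    induction q using MvPolynomial.induction_on with
    | C c =>
      have : Ideal.Quotient.mk Jd (C c) = algebraMap ℚ (R ⧸ Jd) c := rfl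
      rw [this]
      exact isIntegral_algebraMap
    | add p q hp hq =>
      rw [map_add]
      exact hp.add hq
    | mul_X p i hp =>
      rw [map_mul]
      exact hp.mul (iX i)
  exact Algebra.IsIntegral.finite

lemma p00 : (P 0) 0 = 2 := by simp [P]
lemma p01 : (P 0) 1 = 3 := by simp [P]
lemma p10 : (P 1) 0 = 5 := by simp [P]
lemma p11 : (P 1) 1 = 2 := by simp [P]
lemma p20 : (P 2) 0 = 3 := by simp [P]
lemma p21 : (P 2) 1 = 5 := by simp [P]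
lemma p30 : (P 3) 0 = 0 := by simp [P]
lemma p31 : (P 3) 1 = 0 := by simp [P]
lemma p40 : (P 4) 0 = 10 := by simp [P]
lemma p41 : (P 4) 1 = 0 := by simp [P]
lemma p50 : (P 5) 0 = 0 := by simp [P]
lemma p51 : (P 5) 1 = 10 := by simp [P]
lemma x00 : x0 0 = 3 := by simp [x0]
lemma x01 : x0 1 = 3 := by simp [x0]

lemma ne_of_cr {i j : Fin 6} {z : V} (h : cr (P i) (P j) z ≠ 0) : P i ≠ P j := by
  intro h'
  apply h
  rw [h']
  unfold cr
  ring

end Pool.Agent.H798R3.Vis
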